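import Pool.Agent.TH284.Sp2

set_option autoImplicit false
open MeasureTheory Filter Topology Set
open scoped ENNReal

namespace Pool.Agent.TH284.Sp

/-- the digit attached to an integer -/
noncomputable def Bd (m : ℤ) : ℝ := ((m % 2 : ℤ) : ℝ) + 8 * (((m / 2) % 2 : ℤ) : ℝ)

theorem Bd_range (m : ℤ) : 0 ≤ Bd m ∧ Bd m ≤ 9 := by
  have h1 : 0 ≤ m % 2 := by omega
  have h2 : m % 2 ≤ 1 := by omega
  have h3 : 0 ≤ (m / 2) % 2 := by omega
  have h4 : (m / 2) % 2 ≤ 1 := by omega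
  have h1' : (0 : ℝ) ≤ ((m % 2 : ℤ) : ℝ) := by exact_mod_cast h1
  have h2' : ((m % 2 : ℤ) : ℝ) ≤ 1 := by exact_mod_cast h2
  have h3' : (0 : ℝ) ≤ (((m / 2) % 2 : ℤ) : ℝ) := by exact_mod_cast h3
  have h4' : (((m / 2) % 2 : ℤ) : ℝ) ≤ 1 := by exact_mod_cast h4
  unfold Bd
  constructor <;> linarith

theorem Bd_add (m k : ℤ) : Bd (m + 4 * k) = Bd m := by
  unfold Bd
  have h1 : (m + 4 * k) % 2 = m % 2 := by omega
  have h2 : ((m + 4 * k) / 2) % 2 = (m / 2) % 2 := by omega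
  rw [h1, h2]

/-- the coding map from `[0, 1)` -/
noncomputable def G (x : ℝ) : ℝ := ∑' k : ℕ, Bd ⌊4 ^ (k + 1) * x⌋ / 12 ^ (k + 1)

theorem summable_aux (f : ℕ → ℤ) : Summable fun k : ℕ => Bd (f k) / 12 ^ (k + 1) := by
  refine Summable.of_nonneg_of_le (fun k => div_nonneg (Bd_range _).1 (by positivity))
    (fun k => ?_) ((summable_geometric_of_lt_one (by norm_num) (by norm_num : (1 / 12 : ℝ) < 1)).mul_left
      9)
  have h1 := (Bd_range (f k)).2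
  have h2 : (0 : ℝ) < 12 ^ k := by positivity
  rw [one_div_pow, mul_one_div, div_le_div_iff₀ (by positivity) h2, pow_succ]
  nlinarith

theorem G_range (x : ℝ) : 0 ≤ G x ∧ G x ≤ 1 := by
  constructor
  · exact tsum_nonneg fun k => div_nonneg (Bd_range _).1 (by positivity)
  · have hs : Summable fun k : ℕ => (9 / 12 : ℝ) * (1 / 12) ^ k :=
      (summable_geometric_of_lt_one (by norm_num) (by norm_num : (1 / 12 : ℝ) < 1)).mul_left _
    have h1 : G x ≤ ∑' k : ℕ, (9 / 12 : ℝ) * (1 / 12) ^ k := by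
      refine (summable_aux _).tsum_le_tsum (fun k => ?_) hs
      have h1 := (Bd_range ⌊4 ^ (k + 1) * x⌋).2
      have h2 : (9 / 12 : ℝ) * (1 / 12) ^ k = 9 / 12 ^ (k + 1) := by
        rw [one_div_pow, pow_succ (12 : ℝ) k]
        field_simp
      rw [h2]
      exact div_le_div_of_nonneg_right h1 (by positivity)
    rw [tsum_mul_left, tsum_geometric_of_lt_one (by norm_num) (by norm_num)] at h1
    norm_num at h1
    linarith

theorem measurable_G : Measurable G := by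
  have h1 : ∀ k : ℕ, Measurable fun x : ℝ => Bd ⌊4 ^ (k + 1) * x⌋ / 12 ^ (k + 1) := by
    intro k
    have h2 : Measurable fun x : ℝ => ⌊(4 : ℝ) ^ (k + 1) * x⌋ :=
      Int.measurable_floor.comp (measurable_const.mul measurable_id)
    exact ((measurable_of_countable Bd).comp h2).div_const _
  refine measurable_of_tendsto_metrizable
    (f := fun n : ℕ => fun x : ℝ => ∑ k ∈ Finset.range n, Bd ⌊4 ^ (k + 1) * x⌋ / 12 ^ (k + 1)) ?_ ?_
  · intro n
    exact Finset.measurable_sum _ fun k _ => h1 k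
  · rw [tendsto_pi_nhds]
    intro x
    exact (summable_aux fun k => ⌊(4 : ℝ) ^ (k + 1) * x⌋).hasSum.tendsto_sum_nat

theorem G_eq (a : ℤ) (y : ℝ) (hy : y ∈ Ico (0 : ℝ) 1) :
    G ((y + a) / 4) = (G y + Bd a) / 12 := by
  have h0 : ∀ k : ℕ, (4 : ℝ) ^ (k + 1) * ((y + a) / 4) = 4 ^ k * y + ((4 ^ k * a : ℤ) : ℝ) := by
    intro k
    push_cast
    rw [pow_succ]
    ring
  rw [G, (summable_aux fun k => ⌊(4 : ℝ) ^ (k + 1) * ((y + a) / 4)⌋).tsum_eq_zero_add]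
  have h1 : ⌊(4 : ℝ) ^ (0 + 1) * ((y + a) / 4)⌋ = a := by
    rw [h0]
    simp only [pow_zero, one_mul, Int.floor_add_intCast]
    have : ⌊y⌋ = 0 := Int.floor_eq_zero_iff.2 hy
    rw [this, zero_add]
  have h2 : ∀ k : ℕ, Bd ⌊(4 : ℝ) ^ (k + 1 + 1) * ((y + a) / 4)⌋ = Bd ⌊(4 : ℝ) ^ (k + 1) * y⌋ := by
    intro k
    rw [h0, Int.floor_add_intCast, pow_succ (4 : ℤ) k]
    have : (4 : ℤ) ^ k * 4 * a = 4 * (4 ^ k * a) := by ring
    rw [this, Bd_add]
  rw [h1]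
  simp only [h2]
  rw [G, add_div, add_comm]
  congr 1
  · rw [← tsum_div_const]
    congr 1
    funext k
    rw [pow_succ 12 (k + 1), div_mul_eq_div_div]
  · simp

/-- the self-similar measure with digits `0, 1, 8, 9` and scaling `12` -/
noncomputable def nu : Measure ℝ := (volume.restrict (Ico (0 : ℝ) 1)).map G

theorem nu_apply (A : Set ℝ) (hA : MeasurableSet A) : nu A = volume (Ico (0 : ℝ) 1 ∩ G ⁻¹' A) := by
  rw [nu, Measure.map_apply measurable_G hA, Measure.restrict_apply (measurable_G hA), inter_comm]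

instance : IsProbabilityMeasure nu := by
  constructor
  rw [nu_apply _ MeasurableSet.univ]
  simp

theorem nu_supp : ∀ᵐ x ∂nu, x ∈ Icc (0 : ℝ) 1 := by
  rw [ae_iff]
  have h1 : {x : ℝ | ¬ x ∈ Icc (0 : ℝ) 1} = (Icc (0 : ℝ) 1)ᶜ := rfl
  rw [h1, nu_apply _ measurableSet_Icc.compl]
  have h2 : Ico (0 : ℝ) 1 ∩ G ⁻¹' (Icc (0 : ℝ) 1)ᶜ = ∅ := by
    rw [eq_empty_iff_forall_notMem]
    rintro x ⟨-, hx⟩
    exact hx (G_range x)
  rw [h2, measure_empty]

theorem vol_aff (a : ℝ) (S : Set ℝ) :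
    volume ((fun y : ℝ => (y + a) / 4) ⁻¹' S) = 4 * volume S := by
  have h1 : (fun y : ℝ => (y + a) / 4) ⁻¹' S =
      (fun y => y + a) ⁻¹' ((fun z => (4 : ℝ)⁻¹ * z) ⁻¹' S) := by
    ext y
    simp only [mem_preimage]
    rw [div_eq_inv_mul]
  rw [h1, measure_preimage_add_right, Real.volume_preimage_mul_left (by norm_num)]
  congr 1
  rw [inv_inv, abs_of_pos (by norm_num)]
  exact ENNReal.ofReal_ofNat 4

theorem vol_split (E : Set ℝ) (hE : MeasurableSet E) (a b c : ℝ) (hab : a ≤ b) (hbc : b ≤ c) :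
    volume (Ico a c ∩ E) = volume (Ico a b ∩ E) + volume (Ico b c ∩ E) := by
  rw [← Ico_union_Ico_eq_Ico hab hbc, union_inter_distrib_right]
  refine measure_union ?_ (measurableSet_Ico.inter hE)
  rw [Set.disjoint_left]
  rintro x ⟨hx1, -⟩ ⟨hx2, -⟩
  exact absurd hx1.2 (not_lt.2 hx2.1)

theorem nu_inv : Inv1 nu := by
  intro A hA
  have hE := measurable_G hA
  set E : Set ℝ := G ⁻¹' A with hEdef
  have key : ∀ a : ℤ, volume (Ico (0 : ℝ) 1 ∩ G ⁻¹' ((fun x => (x + Bd a) / 12) ⁻¹' A)) =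
      4 * volume (Ico ((a : ℝ) / 4) ((a + 1) / 4) ∩ E) := by
    intro a
    rw [← vol_aff (a : ℝ)]
    congr 1
    ext y
    simp only [mem_inter_iff, mem_preimage, mem_Ico]
    constructor
    · rintro ⟨⟨h1, h2⟩, h3⟩
      refine ⟨⟨by linarith, by linarith⟩, ?_⟩
      show G ((y + a) / 4) ∈ A
      rw [G_eq a y ⟨h1, h2⟩]
      exact h3
    · rintro ⟨⟨h1, h2⟩, h3⟩
      have hy : y ∈ Ico (0 : ℝ) 1 := ⟨by linarith, by linarith⟩
      refine ⟨hy, ?_⟩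
      have h4 : G ((y + a) / 4) ∈ A := h3
      rw [G_eq a y hy] at h4
      exact h4
  have hm : ∀ r : ℝ, MeasurableSet ((fun x : ℝ => (x + r) / 12) ⁻¹' A) := fun r =>
    (by fun_prop : Measurable fun x : ℝ => (x + r) / 12) hA
  have hq : ∀ (q : Q) (a : ℤ), bv q = Bd a →
      nu ((fun x => (x + bv q) / 12) ⁻¹' A) = 4 * volume (Ico ((a : ℝ) / 4) ((a + 1) / 4) ∩ E) := by
    intro q a h
    rw [nu_apply _ (hm _), h, key]
  rw [nu_apply A hA]
  simp only [Fintype.sum_prod_type, Fin.sum_univ_two]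
  rw [hq (0, 0) 0 (by simp [bv, Bd]), hq (0, 1) 2 (by simp [bv, Bd]), hq (1, 0) 1 (by simp [bv, Bd]),
    hq (1, 1) 3 (by norm_num [bv, Bd])]
  have h1 := vol_split E hE 0 (1 / 4) 1 (by norm_num) (by norm_num)
  have h2 := vol_split E hE (1 / 4) (2 / 4) 1 (by norm_num) (by norm_num)
  have h3 := vol_split E hE (2 / 4) (3 / 4) 1 (by norm_num) (by norm_num)
  rw [h1, h2, h3, ← mul_add, ← mul_add, ← mul_add, ← mul_assoc,
    ENNReal.inv_mul_cancel (by norm_num) (by norm_num), one_mul]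
  have e1 : ((((0 : ℤ) : ℝ)) / 4) = 0 := by norm_num
  have e2 : ((((0 : ℤ) : ℝ) + 1) / 4) = 1 / 4 := by norm_num
  have e3 : ((((2 : ℤ) : ℝ)) / 4) = 2 / 4 := by norm_num
  have e4 : ((((2 : ℤ) : ℝ) + 1) / 4) = 3 / 4 := by norm_num
  have e5 : ((((1 : ℤ) : ℝ)) / 4) = 1 / 4 := by norm_num
  have e6 : ((((1 : ℤ) : ℝ) + 1) / 4) = 2 / 4 := by norm_num
  have e7 : ((((3 : ℤ) : ℝ)) / 4) = 3 / 4 := by norm_num
  have e8 : ((((3 : ℤ) : ℝ) + 1) / 4) = 1 := by norm_num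
  rw [e1, e2, e3, e4, e5, e6, e7, e8]
  ring

end Pool.Agent.TH284.Sp
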