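import Pool.Agent.TH284.Sp4
import Pool.Agent.TH284.Sp5

set_option autoImplicit false
open MeasureTheory Matrix
open scoped ENNReal Real

namespace Pool.Agent.TH284.Sp

/-- the digits as integer vectors -/
def bz (q : Q) : Fin 1 → ℤ := fun _ => ((q.1 : ℕ) : ℤ) + 8 * ((q.2 : ℕ) : ℤ)

theorem bz_injective : Function.Injective bz := by decide

/-- the scaling matrix -/
def R12 : Matrix (Fin 1) (Fin 1) ℤ := fun _ _ => 12

/-- the digit set `{0, 1, 8, 9}` -/
def B4 : Finset (Fin 1 → ℤ) := Finset.univ.image bz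

theorem card_B4 : B4.card = 4 := by
  rw [B4, Finset.card_image_of_injective _ bz_injective]
  rfl

theorem det_R12 : R12.det = 12 := by
  rw [Matrix.det_unique]
  rfl

theorem charpoly_root (z : ℂ) (hz : (R12.map (Int.cast : ℤ → ℂ)).charpoly.IsRoot z) : 1 < ‖z‖ := by
  have h1 : (R12.map (Int.cast : ℤ → ℂ)).charpoly = Polynomial.X - Polynomial.C 12 := by
    rw [Matrix.charpoly, Matrix.det_unique, Matrix.charmatrix_apply_eq]
    simp [R12]
  rw [h1] at hz
  have h2 : z = 12 := by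
    simpa [Polynomial.IsRoot, sub_eq_zero] using hz
  rw [h2]
  norm_num

theorem simple (b b' : Fin 1 → ℤ) (hb : b ∈ B4) (hb' : b' ∈ B4) (hne : b ≠ b') :
    ¬ ∃ v : Fin 1 → ℤ, R12 *ᵥ v = b - b' := by
  rw [B4, Finset.mem_image] at hb hb'
  obtain ⟨q, -, rfl⟩ := hb
  obtain ⟨q', -, rfl⟩ := hb'
  rintro ⟨v, hv⟩
  apply hne
  have h1 := congrFun hv 0
  simp only [Matrix.mulVec, dotProduct, R12, Finset.univ_unique, Finset.sum_singleton,
    Pi.sub_apply, bz] at h1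
  obtain ⟨p, r⟩ := q
  obtain ⟨p', r'⟩ := q'
  have hp := p.2
  have hp' := p'.2
  have hr := r.2
  have hr' := r'.2
  simp only at h1
  funext i
  simp only [bz]
  have h2 : (p : ℕ) = (p' : ℕ) ∧ (r : ℕ) = (r' : ℕ) := by omega
  rw [h2.1, h2.2]

theorem zero_mem : (0 : Fin 1 → ℤ) ∈ B4 := by
  rw [B4, Finset.mem_image]
  exact ⟨(0, 0), Finset.mem_univ _, by decide⟩

theorem closure_top :
    AddSubgroup.closure {v : Fin 1 → ℤ | ∃ k : ℕ, ∃ b ∈ B4, v = (R12 ^ k) *ᵥ b} = ⊤ := by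
  rw [eq_top_iff]
  intro v _
  have h1 : (fun _ => 1 : Fin 1 → ℤ) ∈
      AddSubgroup.closure {v : Fin 1 → ℤ | ∃ k : ℕ, ∃ b ∈ B4, v = (R12 ^ k) *ᵥ b} := by
    refine AddSubgroup.subset_closure ⟨0, bz (1, 0), ?_, ?_⟩
    · rw [B4, Finset.mem_image]
      exact ⟨(1, 0), Finset.mem_univ _, rfl⟩
    · rw [pow_zero, Matrix.one_mulVec]
      decide
  have h2 : v = v 0 • (fun _ => 1 : Fin 1 → ℤ) := by
    funext i
    rw [Subsingleton.elim i 0]
    simp
  rw [h2]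
  exact AddSubgroup.zsmul_mem _ h1 _

theorem inv_R12 : (R12.map (Int.cast : ℤ → ℝ))⁻¹ = fun _ _ => (12 : ℝ)⁻¹ := by
  refine Matrix.inv_eq_right_inv ?_
  ext i j
  rw [Subsingleton.elim i 0, Subsingleton.elim j 0]
  show ∑ k, (R12.map (Int.cast : ℤ → ℝ)) 0 k * (12 : ℝ)⁻¹ = 1
  simp [R12]

/-- the identification of the line with `ℝ^1` -/
noncomputable def ie : ℝ ≃ᵐ (Fin 1 → ℝ) := (MeasurableEquiv.funUnique (Fin 1) ℝ).symm

theorem ie_apply (x : ℝ) (i : Fin 1) : ie x i = x := rfl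

/-- the self-similar measure on `ℝ^1` -/
noncomputable def mu : Measure (Fin 1 → ℝ) := nu.map ie

instance : IsProbabilityMeasure mu :=
  Measure.isProbabilityMeasure_map ie.measurable.aemeasurable

theorem measurable_map (b : Fin 1 → ℤ) : Measurable (fun x : Fin 1 → ℝ =>
    (R12.map (Int.cast : ℤ → ℝ))⁻¹ *ᵥ (x + fun i => (b i : ℝ))) := by
  rw [inv_R12]
  refine measurable_pi_lambda _ fun i => ?_
  simp only [Matrix.mulVec, dotProduct, Finset.univ_unique, Finset.sum_singleton, Pi.add_apply]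
  fun_prop

theorem mu_inv : mu = ((B4.card : ℝ≥0∞)⁻¹) • ∑ b ∈ B4,
    mu.map (fun x => (R12.map (Int.cast : ℤ → ℝ))⁻¹ *ᵥ (x + fun i => (b i : ℝ))) := by
  ext A hA
  rw [Measure.smul_apply, Measure.finsetSum_apply, smul_eq_mul, card_B4, B4,
    Finset.sum_image fun _ _ _ _ h => bz_injective h, mu,
    Measure.map_apply ie.measurable hA, nu_inv _ (ie.measurable hA)]
  congr 1
  refine Finset.sum_congr rfl fun q _ => ?_
  have hm := measurable_map (bz q)
  rw [Measure.map_apply hm hA, Measure.map_apply ie.measurable (hm hA)]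
  congr 1
  ext x
  simp only [Set.mem_preimage]
  have : ie ((x + bv q) / 12) = (R12.map (Int.cast : ℤ → ℝ))⁻¹ *ᵥ (ie x + fun i => (bz q i : ℝ)) := by
    rw [inv_R12]
    funext i
    simp only [Matrix.mulVec, dotProduct, Finset.univ_unique, Finset.sum_singleton, Pi.add_apply,
      ie_apply, bv, bz]
    push_cast
    ring
  rw [this]

/-- the spectrum -/
def Lam : Set (Fin 1 → ℝ) := {l | ∃ (n : ℕ) (v : Fin n → Q), l = fun _ => lam n v}

theorem lam_extend (n : ℕ) (v : Fin n → Q) (N : ℕ) (hN : n ≤ N) :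
    ∃ v' : Fin N → Q, lam N v' = lam n v := by
  obtain ⟨m, rfl⟩ := Nat.exists_eq_add_of_le hN
  refine ⟨Fin.append v fun _ => (0, 0), ?_⟩
  rw [lam, lam, Fin.sum_univ_add]
  simp [dv]

theorem integral_mu (f : (Fin 1 → ℝ) → ℂ) : ∫ x, f x ∂mu = ∫ x, f (ie x) ∂nu := by
  rw [mu]
  exact integral_map_equiv ie f

theorem orth (l l' : Fin 1 → ℝ) (hl : l ∈ Lam) (hl' : l' ∈ Lam) (hne : l ≠ l') :
    ∫ x, Complex.exp (2 * π * Complex.I * ((∑ i, (l i - l' i) * x i : ℝ) : ℂ)) ∂mu = 0 := by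
  obtain ⟨n, v, rfl⟩ := hl
  obtain ⟨n', v', rfl⟩ := hl'
  obtain ⟨u, hu⟩ := lam_extend n v (max n n') (le_max_left _ _)
  obtain ⟨u', hu'⟩ := lam_extend n' v' (max n n') (le_max_right _ _)
  have huu : u ≠ u' := by
    rintro rfl
    apply hne
    funext _
    rw [← hu, ← hu']
  rw [← hu, ← hu']
  rw [integral_mu]
  have h1 : ∀ x : ℝ, Complex.exp (2 * π * Complex.I *
      ((∑ i : Fin 1, (lam (max n n') u - lam (max n n') u') * ie x i : ℝ) : ℂ)) =
      e (-((lam (max n n') u' - lam (max n n') u) * x)) := by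
    intro x
    rw [e]
    congr 2
    simp only [Finset.univ_unique, Finset.sum_singleton, ie_apply]
    push_cast
    ring
  simp only [h1]
  refine ft_zero_of_words nu_inv (max n n') _ ?_
  rw [← sum_words_eq_zero (max n n') u u' huu]
  refine Finset.sum_congr rfl fun w _ => ?_
  congr 1
  ring

theorem unit (l : Fin 1 → ℝ) :
    ∫ x, Complex.exp (2 * π * Complex.I * ((∑ i, (l i - l i) * x i : ℝ) : ℂ)) ∂mu = 1 := by
  simp

theorem complete_mu (f : (Fin 1 → ℝ) → ℂ) (hf : MemLp f 2 mu)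
    (h : ∀ l ∈ Lam, ∫ x, f x * Complex.exp (-(2 * π * Complex.I * ((∑ i, l i * x i : ℝ) : ℂ))) ∂mu = 0) :
    f =ᵐ[mu] 0 := by
  have hf1 : MemLp (fun x => f (ie x)) 2 nu := hf.comp_of_map ie.measurable.aemeasurable
  have h1 := complete nu_inv nu_supp _ hf1 ?_
  · rw [mu]
    exact (ie.measurableEmbedding.ae_map_iff (p := fun x => f x = (0 : (Fin 1 → ℝ) → ℂ) x)).2 h1
  · intro n v
    have h2 := h _ ⟨n, v, rfl⟩
    rw [integral_mu] at h2
    rw [← h2]
    congr 1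
    funext x
    congr 1
    rw [e]
    congr 1
    simp only [Finset.univ_unique, Finset.sum_singleton, ie_apply]
    push_cast
    ring

theorem no_L : ¬ ∃ L : Finset (Fin 1 → ℤ), L.card = B4.card ∧
        ∀ l ∈ L, ∀ l' ∈ L,
          (l = l' → ∑ b ∈ B4, Complex.exp (2 * π * Complex.I *
              ((∑ i, ((R12.map (Int.cast : ℤ → ℝ))⁻¹ *ᵥ (fun j => (b j : ℝ))) i * ((l i : ℝ) - (l' i : ℝ)) : ℝ) : ℂ))
              = (B4.card : ℂ)) ∧
          (l ≠ l' → ∑ b ∈ B4, Complex.exp (2 * π * Complex.I *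
              ((∑ i, ((R12.map (Int.cast : ℤ → ℝ))⁻¹ *ᵥ (fun j => (b j : ℝ))) i * ((l i : ℝ) - (l' i : ℝ)) : ℝ) : ℂ))
              = 0) := by
  rintro ⟨L, hL, h⟩
  rw [card_B4] at hL
  obtain ⟨a, ha, b, hb, c, hc, hab, hac, hbc⟩ := Finset.two_lt_card.1 (by omega : 2 < L.card)
  have key : ∀ l ∈ L, ∀ l' ∈ L, l ≠ l' → e (((l 0 - l' 0 : ℤ) : ℝ) / 12) = -1 := by
    intro l hl l' hl' hne
    have h1 := (h l hl l' hl').2 hne
    rw [B4, Finset.sum_image fun _ _ _ _ h => bz_injective h, inv_R12] at h1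
    have h2 : ∀ q : Q, Complex.exp (2 * π * Complex.I *
        ((∑ i : Fin 1, ((fun _ _ => (12 : ℝ)⁻¹ : Matrix (Fin 1) (Fin 1) ℝ) *ᵥ
          (fun j => ((bz q j : ℤ) : ℝ))) i * ((l i : ℝ) - (l' i : ℝ)) : ℝ) : ℂ)) =
        e (((l 0 - l' 0 : ℤ) : ℝ) / 12 * bv q) := by
      intro q
      rw [e]
      congr 2
      simp only [Matrix.mulVec, dotProduct, Finset.univ_unique, Finset.sum_singleton, bz, bv]
      have h3 : (default : Fin 1) = 0 := rfl
      rw [h3]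
      push_cast
      ring
    simp only [h2] at h1
    rw [sum_digit] at h1
    rcases mul_eq_zero.1 h1 with h3 | h3
    · exact (neg_eq_of_add_eq_zero_right h3).symm
    · exfalso
      have h4 : e (8 * (((l 0 - l' 0 : ℤ) : ℝ) / 12)) = -1 := (neg_eq_of_add_eq_zero_right h3).symm
      have h5 : e ((2 * (l 0 - l' 0) : ℤ) : ℝ) = (-1) * (-1) * (-1) := by
        have h6 : (((2 * (l 0 - l' 0) : ℤ) : ℝ)) = 8 * (((l 0 - l' 0 : ℤ) : ℝ) / 12) +
            8 * (((l 0 - l' 0 : ℤ) : ℝ) / 12) + 8 * (((l 0 - l' 0 : ℤ) : ℝ) / 12) := by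
          push_cast
          ring
        rw [h6, e_add, e_add, h4]
      rw [e_int] at h5
      norm_num at h5
  have h1 := key a ha b hb hab
  have h2 := key b hb c hc hbc
  have h3 := key a ha c hc hac
  have h4 : ((a 0 - c 0 : ℤ) : ℝ) / 12 = ((a 0 - b 0 : ℤ) : ℝ) / 12 + ((b 0 - c 0 : ℤ) : ℝ) / 12 := by
    push_cast
    ring
  rw [h4, e_add, h1, h2] at h3
  norm_num at h3

end Pool.Agent.TH284.Sp
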