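import Pool.Agent.TH284.Overlap

set_option autoImplicit false
open MeasureTheory Matrix Filter Topology
open scoped ENNReal

namespace Pool.Agent.TH284.SA

variable {d : ℕ} {R : Matrix (Fin d) (Fin d) ℤ} {B : Finset (Fin d → ℤ)}
  {μ : Measure (Fin d → ℝ)} {T : Set (Fin d → ℝ)}

/-- the integer vectors which are differences of points of `T` -/
def Near (T : Set (Fin d → ℝ)) (v : Fin d → ℤ) : Prop := ∃ x ∈ T, ∃ y ∈ T, x - y = toR v

theorem near_finite (hTc : IsCompact T) : {v | Near T v}.Finite := by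
  obtain ⟨D, hD⟩ := hTc.isBounded.exists_norm_le
  refine (Set.finite_Icc (fun _ : Fin d => -⌈2 * D⌉) (fun _ => ⌈2 * D⌉)).subset ?_
  rintro v ⟨x, hx, y, hy, hxy⟩
  have h1 : ∀ i, |(v i : ℝ)| ≤ 2 * D := by
    intro i
    have h2 : ‖toR v‖ ≤ 2 * D := by
      rw [← hxy]
      have := norm_sub_le x y
      have := hD x hx
      have := hD y hy
      linarith
    have h3 := norm_le_pi_norm (toR v) i
    exact h3.trans h2
  constructor
  · intro i
    have h2 := (abs_le.1 (h1 i)).1
    have h3 : (2 * D : ℝ) ≤ (⌈2 * D⌉ : ℤ) := Int.le_ceil _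
    show -⌈2 * D⌉ ≤ v i
    have h4 : (-(⌈2 * D⌉ : ℤ) : ℝ) ≤ (v i : ℝ) := by linarith
    exact_mod_cast h4
  · intro i
    have h2 := (abs_le.1 (h1 i)).2
    have h3 : (2 * D : ℝ) ≤ (⌈2 * D⌉ : ℤ) := Int.le_ceil _
    show v i ≤ ⌈2 * D⌉
    have h4 : (v i : ℝ) ≤ ((⌈2 * D⌉ : ℤ) : ℝ) := by linarith
    exact_mod_cast h4

open Classical in
/-- neighbour type of a word -/
noncomputable def Nb (R : Matrix (Fin d) (Fin d) ℤ) (B : Finset (Fin d → ℤ))
    (T : Set (Fin d → ℝ)) (n : ℕ) (w : List (Fin d → ℤ)) : Finset (Fin d → ℤ) :=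
  ((W B n).image fun w' => code R w' - code R w).filter fun v => Near T v

theorem mem_Nb {n : ℕ} {w : List (Fin d → ℤ)} {v : Fin d → ℤ} :
    v ∈ Nb R B T n w ↔ (∃ w' ∈ W B n, code R w' - code R w = v) ∧ Near T v := by
  classical
  rw [Nb, Finset.mem_filter, Finset.mem_image]

/-- No exact overlaps implies no overlap. -/
theorem no_overlap [IsProbabilityMeasure μ] (h : Inv R B μ)
    (hR : ∀ z : ℂ, (R.map (Int.castRingHom ℂ)).charpoly.IsRoot z → 1 < ‖z‖)
    (hTc : IsCompact T) (hTn : T.Nonempty) (hT : T = ⋃ b ∈ B, phi R b '' T)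
    (hex : ∀ n, ∀ w ∈ W B n, ∀ w' ∈ W B n, code R w = code R w' → w = w')
    (b b' : Fin d → ℤ) (hb : b ∈ B) (hb' : b' ∈ B) (hne : b ≠ b') :
    μ (phi R b '' T ∩ phi R b' '' T) = 0 := by
  classical
  have hdet := det_ne_zero R hR
  have hN0 := h.card_ne_zero
  have hNt : (B.card : ℝ≥0∞) ≠ ∞ := ENNReal.natCast_ne_top _
  -- a word with the largest neighbour type
  have hbound : ∀ n w, (Nb R B T n w).card ≤ (near_finite hTc).toFinset.card := by
    intro n w
    refine Finset.card_le_card fun v hv => ?_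
    rw [Set.Finite.mem_toFinset]
    exact (mem_Nb.1 hv).2
  obtain ⟨n0, w0, hw0, hmax⟩ : ∃ n0, ∃ w0 ∈ W B n0, ∀ n, ∀ w ∈ W B n,
      (Nb R B T n w).card ≤ (Nb R B T n0 w0).card := by
    let K : Set ℕ := {k | ∃ n, ∃ w ∈ W B n, (Nb R B T n w).card = k}
    have hK1 : K.Nonempty := ⟨_, 0, [], by simp [W], rfl⟩
    have hK2 : BddAbove K := ⟨(near_finite hTc).toFinset.card, by
      rintro k ⟨n, w, -, rfl⟩
      exact hbound n w⟩
    obtain ⟨n0, w0, hw0, hk⟩ := Nat.sSup_mem hK1 hK2
    refine ⟨n0, w0, hw0, fun n w hw => ?_⟩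
    rw [hk]
    exact le_csSup hK2 ⟨n, w, hw, rfl⟩
  have hNbeq : ∀ m, ∀ u ∈ W B m, Nb R B T (m + n0) (u ++ w0) = Nb R B T n0 w0 := by
    intro m u hu
    symm
    refine Finset.eq_of_subset_of_card_le ?_ (hmax _ _ (append_mem_W B hu hw0))
    intro v hv
    obtain ⟨⟨w', hw', hv1⟩, hv2⟩ := mem_Nb.1 hv
    refine mem_Nb.2 ⟨⟨u ++ w', append_mem_W B hu hw', ?_⟩, hv2⟩
    rw [code_append, code_append, ((mem_W B n0 w').1 hw').1, ((mem_W B n0 w0).1 hw0).1, ← hv1]
    abel
  have claim : ∀ m, ∀ u ∈ W B m, ∀ u' ∈ W B m, ∀ z ∈ W B n0, ∀ x ∈ T, ∀ y ∈ T,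
      phiw R (u ++ w0) x = phiw R (u' ++ z) y → u = u' := by
    intro m u hu u' hu' z hz x hx y hy hxy
    have hl1 := ((mem_W B _ _).1 (append_mem_W B hu hw0)).1
    have hl2 := ((mem_W B _ _).1 (append_mem_W B hu' hz)).1
    rw [phiw_eq R hdet, phiw_eq R hdet, hl1, hl2] at hxy
    have h1 := inv_pow_mulVec_injective R hdet (m + n0) hxy
    have hnear : Near T (code R (u' ++ z) - code R (u ++ w0)) := by
      refine ⟨x, hx, y, hy, ?_⟩
      rw [toR_sub, sub_eq_sub_iff_add_eq_add, h1, add_comm]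
    have h2 : code R (u' ++ z) - code R (u ++ w0) ∈ Nb R B T (m + n0) (u ++ w0) :=
      mem_Nb.2 ⟨⟨u' ++ z, append_mem_W B hu' hz, rfl⟩, hnear⟩
    rw [hNbeq m u hu] at h2
    obtain ⟨⟨w', hw', h3⟩, -⟩ := mem_Nb.1 h2
    have h4 : code R (u' ++ z) = code R (u ++ w') := by
      rw [code_append R u w0, ((mem_W B n0 w0).1 hw0).1] at h3
      rw [code_append R u w', ((mem_W B n0 w').1 hw').1]
      have h5 : code R (u' ++ z) = (code R w' - code R w0) + (R ^ n0 *ᵥ code R u + code R w0) := by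
        rw [h3]
        abel
      rw [h5]
      abel
    have h5 := hex _ _ (append_mem_W B hu' hz) _ (append_mem_W B hu hw') h4
    have h6 := List.append_inj h5 (by rw [((mem_W B m u').1 hu').1, ((mem_W B m u).1 hu).1])
    exact h6.1.symm
  have hTcompl := measure_compl h hR hTc hTn hT
  have hTm : MeasurableSet T := hTc.isClosed.measurableSet
  have him : ∀ w, MeasurableSet (phiw R w '' T) := fun w =>
    (hTc.image (continuous_phiw R w)).isClosed.measurableSet
  -- points without the special word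
  set D : Set (Fin d → ℝ) := T \ ⋃ m : ℕ, ⋃ u ∈ W B m, phiw R (u ++ w0) '' T with hD
  have hDm : MeasurableSet D := by
    refine hTm.diff (MeasurableSet.iUnion fun m => ?_)
    exact Finset.measurableSet_biUnion _ fun u _ => him _
  have hD0 : μ D = 0 := by
    have h1 := h.words' n0 D hDm
    rw [← Finset.add_sum_erase _ _ hw0] at h1
    have h2 : μ (phiw R w0 ⁻¹' D) = 0 := by
      refine measure_mono_null ?_ hTcompl
      intro x hx hxT
      have h3 : phiw R w0 x ∈ D := hx
      apply h3.2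
      rw [Set.mem_iUnion]
      refine ⟨0, ?_⟩
      simp only [Set.mem_iUnion]
      exact ⟨[], by simp [W], x, hxT, rfl⟩
    have h3 : ∀ w ∈ (W B n0).erase w0, μ (phiw R w ⁻¹' D) ≤ μ D := by
      intro w hw
      have h4 : phiw R w ⁻¹' D ⊆ D ∪ Tᶜ := by
        intro x hx
        by_cases hxT : x ∈ T
        · left
          refine ⟨hxT, ?_⟩
          intro hx2
          have hx' : phiw R w x ∈ D := hx
          apply hx'.2
          rw [Set.mem_iUnion] at hx2 ⊢
          obtain ⟨m, hx3⟩ := hx2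
          simp only [Set.mem_iUnion] at hx3
          obtain ⟨u, hu, y, hy, hyx⟩ := hx3
          refine ⟨n0 + m, ?_⟩
          simp only [Set.mem_iUnion]
          refine ⟨w ++ u, append_mem_W B (Finset.mem_of_mem_erase hw) hu, y, hy, ?_⟩
          rw [List.append_assoc, phiw_append, hyx]
        · right
          exact hxT
      calc μ (phiw R w ⁻¹' D) ≤ μ (D ∪ Tᶜ) := measure_mono h4
        _ ≤ μ D + μ Tᶜ := measure_union_le _ _
        _ = μ D := by rw [hTcompl, add_zero]
    have h4 : (B.card : ℝ≥0∞) ^ n0 * μ D ≤ (((W B n0).erase w0).card : ℝ≥0∞) * μ D := by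
      rw [h1, h2, zero_add, ← nsmul_eq_mul]
      exact Finset.sum_le_card_nsmul _ _ _ h3
    rw [Finset.card_erase_of_mem hw0, card_W] at h4
    have hpos : 0 < B.card ^ n0 := by
      rw [← card_W B n0]
      exact Finset.card_pos.2 ⟨w0, hw0⟩
    have h5 : ((B.card ^ n0 : ℕ) : ℝ) * (μ D).toReal ≤
        ((B.card ^ n0 - 1 : ℕ) : ℝ) * (μ D).toReal := by
      have h6 := ENNReal.toReal_mono (ENNReal.mul_ne_top (ENNReal.natCast_ne_top _)
        (measure_ne_top μ D)) h4
      rw [← Nat.cast_pow, ENNReal.toReal_mul, ENNReal.toReal_mul, ENNReal.toReal_natCast,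
        ENNReal.toReal_natCast] at h6
      exact h6
    rw [Nat.cast_sub hpos] at h5
    have h6 : (μ D).toReal ≤ 0 := by
      push_cast at h5
      nlinarith
    have h7 : (μ D).toReal = 0 := le_antisymm h6 ENNReal.toReal_nonneg
    rcases (ENNReal.toReal_eq_zero_iff _).1 h7 with h8 | h8
    · exact h8
    · exact absurd h8 (measure_ne_top μ D)
  -- the overlap
  set S : Set (Fin d → ℝ) := phi R b '' T ∩ phi R b' '' T with hS
  have hSm : MeasurableSet S := by
    have h1 : ∀ c, MeasurableSet (phi R c '' T) := fun c =>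
      (hTc.image (continuous_phi R c)).isClosed.measurableSet
    exact (h1 b).inter (h1 b')
  rw [h S hSm]
  have h1 : ∀ b1 ∈ B, μ (phi R b1 ⁻¹' S) = 0 := by
    intro b1 hb1
    have h2 : phi R b1 ⁻¹' S ⊆ D ∪ Tᶜ := by
      intro x hx
      by_cases hxT : x ∈ T
      · left
        refine ⟨hxT, ?_⟩
        intro hx2
        rw [Set.mem_iUnion] at hx2
        obtain ⟨m, hx3⟩ := hx2
        simp only [Set.mem_iUnion] at hx3
        obtain ⟨u, hu, y, hy, hyx⟩ := hx3
        have hxS : phi R b1 x ∈ S := hx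
        have hu1 : b1 :: u ∈ W B (m + 1) := by
          rw [W, Finset.mem_image]
          exact ⟨(b1, u), Finset.mem_product.2 ⟨hb1, hu⟩, rfl⟩
        have key : ∀ c ∈ B, phi R b1 x ∈ phi R c '' T → b1 = c := by
          rintro c hc ⟨t, ht, htx⟩
          obtain ⟨z, hz, t', ht', hzt⟩ := exists_word hT (m + n0) t ht
          obtain ⟨hzl, hzB⟩ := (mem_W B _ z).1 hz
          have hz1 : z.take m ∈ W B m := by
            rw [mem_W]
            refine ⟨by rw [List.length_take, hzl]; omega, fun q hq => hzB q (List.mem_of_mem_take hq)⟩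
          have hz2 : z.drop m ∈ W B n0 := by
            rw [mem_W]
            refine ⟨by rw [List.length_drop, hzl]; omega, fun q hq => hzB q (List.mem_of_mem_drop hq)⟩
          have hc1 : c :: z.take m ∈ W B (m + 1) := by
            rw [W, Finset.mem_image]
            exact ⟨(c, z.take m), Finset.mem_product.2 ⟨hc, hz1⟩, rfl⟩
          have h3 : phiw R ((b1 :: u) ++ w0) y = phiw R ((c :: z.take m) ++ z.drop m) t' := by
            rw [List.cons_append, List.cons_append, List.take_append_drop, phiw, phiw, hyx, hzt, htx]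
          have h4 := claim _ _ hu1 _ hc1 _ hz2 y hy t' ht' h3
          exact (List.cons.inj h4).1
        exact hne ((key b hb hxS.1).symm.trans (key b' hb' hxS.2))
      · right
        exact hxT
    refine measure_mono_null h2 ?_
    exact measure_union_null hD0 hTcompl
  rw [Finset.sum_eq_zero h1, mul_zero]

end Pool.Agent.TH284.SA
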