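import Mathlib

set_option autoImplicit false

open MeasureTheory Set Filter Topology
open scoped ENNReal Real Pointwise

namespace Pool.Agent.TH284.J239

/-- pyramid in coordinates `(t, y)` -/
def Q2 (d : ℕ) (h τ : ℝ) : Set (ℝ × (Fin d → ℝ)) :=
  {x | 0 < x.1 ∧ x.1 < τ ∧ ∀ k, |x.2 k| ≤ h * x.1 / 2}

lemma Q2_meas (d : ℕ) (h τ : ℝ) : MeasurableSet (Q2 d h τ) := by
  have : Q2 d h τ = {x | 0 < x.1} ∩ {x | x.1 < τ} ∩ ⋂ k, {x : ℝ × (Fin d → ℝ) | |x.2 k| ≤ h * x.1 / 2} := by
    ext x
    simp [Q2, and_assoc]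
  rw [this]
  refine ((measurableSet_lt measurable_const measurable_fst).inter
    (measurableSet_lt measurable_fst measurable_const)).inter ?_
  refine MeasurableSet.iInter (fun k => ?_)
  apply measurableSet_le
  · have : Measurable (fun x : ℝ × (Fin d → ℝ) => x.2 k) := (measurable_pi_apply k).comp measurable_snd
    exact this.abs
  · exact ((measurable_fst.const_mul h).div_const 2)

lemma vol_Q2 (d : ℕ) (h τ : ℝ) (hh : 0 < h) (hτ : 0 ≤ τ) :
    volume (Q2 d h τ) = ENNReal.ofReal (h ^ d * τ ^ (d + 1) / (d + 1)) := by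
  rw [show (volume : Measure (ℝ × (Fin d → ℝ))) = (volume : Measure ℝ).prod volume from rfl,
    Measure.prod_apply (Q2_meas d h τ)]
  have h1 : ∀ t : ℝ, volume (Prod.mk t ⁻¹' Q2 d h τ) =
      (Ioo 0 τ).indicator (fun t => ENNReal.ofReal ((h * t) ^ d)) t := by
    intro t
    by_cases ht : t ∈ Ioo 0 τ
    · rw [indicator_of_mem ht]
      have : Prod.mk t ⁻¹' Q2 d h τ = Icc (fun _ => -(h * t / 2)) (fun _ => h * t / 2) := by
        ext y
        simp only [Q2, mem_preimage, mem_setOf_eq, mem_Icc, Pi.le_def, abs_le]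
        constructor
        · rintro ⟨-, -, h3⟩
          exact ⟨fun k => (h3 k).1, fun k => (h3 k).2⟩
        · rintro ⟨h3, h4⟩
          exact ⟨ht.1, ht.2, fun k => ⟨h3 k, h4 k⟩⟩
      rw [this, Real.volume_Icc_pi]
      have h2 : ∀ i : Fin d, ENNReal.ofReal (h * t / 2 - -(h * t / 2)) = ENNReal.ofReal (h * t) := by
        intro i
        congr 1
        ring
      rw [Finset.prod_congr rfl (fun i _ => h2 i), Finset.prod_const, Finset.card_univ,
        Fintype.card_fin, ENNReal.ofReal_pow (mul_pos hh ht.1).le]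
    · rw [indicator_of_notMem ht]
      have : Prod.mk t ⁻¹' Q2 d h τ = ∅ := by
        ext y
        simp only [Q2, mem_preimage, mem_setOf_eq, mem_empty_iff_false, iff_false]
        rintro ⟨h3, h4, -⟩
        exact ht ⟨h3, h4⟩
      rw [this, measure_empty]
  rw [lintegral_congr h1, lintegral_indicator measurableSet_Ioo]
  rw [← ofReal_integral_eq_lintegral_ofReal]
  · congr 1
    rw [← integral_Ioc_eq_integral_Ioo, ← intervalIntegral.integral_of_le hτ]
    have : (fun t : ℝ => (h * t) ^ d) = fun t => h ^ d * t ^ d := by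
      funext t
      rw [mul_pow]
    rw [this, intervalIntegral.integral_const_mul, integral_pow]
    simp
    ring
  · apply Continuous.integrableOn_Icc (a := 0) (b := τ) (by fun_prop) |>.mono_set Ioo_subset_Icc_self
  · filter_upwards [ae_restrict_mem measurableSet_Ioo] with t ht
    have := ht.1
    positivity

end Pool.Agent.TH284.J239
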