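import Pool.Agent.TH331.RZ.Defs
import Pool.Agent.Helper88.SE.P_chart_dist
import Pool.Agent.Helper88.SE.P_lin_change
import Pool.Agent.TH284.J239b

set_option autoImplicit false

open MeasureTheory Set Filter Topology
open scoped ENNReal Real FourierTransform Pointwise

namespace Pool.Agent.TH284.J239

open Pool.Agent.TH331.RZ Pool.Agent.Helper88.SE

/-- coordinates: first coordinate `t`, other coordinates `h * (v k - 1/2)` -/
noncomputable def wv {d : ℕ} (h : ℝ) (v : Fin d → ℝ) : E d :=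
  WithLp.toLp 2 (Fin.cons 1 (fun k => h * (v k - 1 / 2)) : Fin (d + 1) → ℝ)

/-- the horizontal part -/
noncomputable def hv {d : ℕ} (h : ℝ) (v : Fin d → ℝ) : E d :=
  WithLp.toLp 2 (Fin.cons 0 (fun k => h * (v k - 1 / 2)) : Fin (d + 1) → ℝ)

lemma wv_eq {d : ℕ} (h : ℝ) (v : Fin d → ℝ) :
    wv h v = hv h v + EuclideanSpace.single 0 1 := by
  ext i
  refine Fin.cases ?_ (fun k => ?_) i
  · simp [wv, hv]
  · simp [wv, hv]

lemma hv_inner {d : ℕ} (h : ℝ) (v : Fin d → ℝ) :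
    inner ℝ (EuclideanSpace.single 0 1 : E d) (hv h v) = 0 := by
  rw [EuclideanSpace.inner_single_left]
  simp [hv]

lemma norm_hv_sub {d : ℕ} (h : ℝ) (hh : 0 < h) (v v' : Fin d → ℝ) :
    ‖hv h v - hv h v'‖ = h * Real.sqrt (∑ k, (v k - v' k) ^ 2) := by
  rw [EuclideanSpace.norm_eq, Fin.sum_univ_succ]
  have : ∀ k : Fin d, ‖(hv h v - hv h v') (Fin.succ k)‖ ^ 2 = h ^ 2 * (v k - v' k) ^ 2 := by
    intro k
    rw [Real.norm_eq_abs, sq_abs]
    simp [hv]
    ring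
  rw [Finset.sum_congr rfl (fun k _ => this k), ← Finset.mul_sum]
  have h0 : ‖(hv h v - hv h v') 0‖ ^ 2 = 0 := by simp [hv]
  rw [h0, zero_add, Real.sqrt_mul (sq_nonneg h), Real.sqrt_sq hh.le]

lemma norm_hv_sq {d : ℕ} (h : ℝ) (hh : 0 < h) (v : Fin d → ℝ) (hv1 : v ∈ Icc (0 : Fin d → ℝ) 1) :
    ‖hv h v‖ ^ 2 ≤ h ^ 2 * d / 4 := by
  rw [EuclideanSpace.norm_sq_eq, Fin.sum_univ_succ]
  have : ∀ k : Fin d, ‖(hv h v) (Fin.succ k)‖ ^ 2 ≤ h ^ 2 / 4 := by
    intro k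
    rw [Real.norm_eq_abs, sq_abs]
    have e : (hv h v) (Fin.succ k) = h * (v k - 1 / 2) := by simp [hv]
    rw [e, mul_pow]
    have h1 := hv1.1 k
    have h2 := hv1.2 k
    simp only [Pi.zero_apply, Pi.one_apply] at h1 h2
    have : (v k - 1 / 2) ^ 2 ≤ 1 / 4 := by nlinarith
    nlinarith [sq_nonneg h]
  have h0 : ‖(hv h v) 0‖ ^ 2 = 0 := by simp [hv]
  rw [h0, zero_add]
  calc ∑ k : Fin d, ‖(hv h v) (Fin.succ k)‖ ^ 2 ≤ ∑ _k : Fin d, h ^ 2 / 4 :=
        Finset.sum_le_sum (fun k _ => this k)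
    _ = h ^ 2 * d / 4 := by simp; ring

lemma exists_iso {d : ℕ} (p : S d) : ∃ G : Iso d, G (EuclideanSpace.single 0 1) = (p : E d) := by
  have hp : ‖(p : E d)‖ = 1 := by simp
  have : ∃ b : OrthonormalBasis (Fin (d + 1)) ℝ (E d), ∀ i ∈ ({0} : Set (Fin (d + 1))),
      b i = (fun _ => (p : E d)) i := by
    apply Orthonormal.exists_orthonormalBasis_extension_of_card_eq (by simp)
    refine ⟨?_, ?_⟩
    · intro i
      exact hp
    · intro i j hij
      exfalso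
      apply hij
      have hi := i.2
      have hj := j.2
      simp only [mem_singleton_iff] at hi hj
      exact Subtype.ext (hi.trans hj.symm)
  obtain ⟨b, hb⟩ := this
  refine ⟨b.repr.symm, ?_⟩
  rw [OrthonormalBasis.repr_symm_single]
  simpa using hb 0 rfl

/-- the chart -/
noncomputable def XX {d : ℕ} (G : Iso d) (h : ℝ) (v : Fin d → ℝ) : S d := nrm (G (wv h v))

lemma wv_norm_sq {d : ℕ} (h : ℝ) (v : Fin d → ℝ) : ‖wv h v‖ ^ 2 = 1 + ‖hv h v‖ ^ 2 := by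
  rw [wv_eq, norm_add_sq_real, real_inner_comm, hv_inner]
  simp
  ring

lemma wv_ne {d : ℕ} (h : ℝ) (v : Fin d → ℝ) : wv h v ≠ 0 := by
  intro h0
  have := wv_norm_sq h v
  rw [h0, norm_zero] at this
  nlinarith [sq_nonneg ‖hv h v‖]

lemma XX_coe {d : ℕ} (G : Iso d) (h : ℝ) (v : Fin d → ℝ) :
    (XX G h v : E d) = ‖wv h v‖⁻¹ • (G (hv h v) + G (EuclideanSpace.single 0 1)) := by
  unfold XX nrm
  have hne : G (wv h v) ≠ 0 := by
    intro h0
    exact wv_ne h v (by simpa using h0)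
  rw [dif_neg hne]
  show ‖G (wv h v)‖⁻¹ • G (wv h v) = _
  rw [LinearIsometryEquiv.norm_map, wv_eq h v, map_add]

lemma XX_cont {d : ℕ} (G : Iso d) (h : ℝ) : Continuous (XX G h) := by
  rw [continuous_induced_rng]
  have : (Subtype.val ∘ XX G h) = fun v => ‖wv h v‖⁻¹ • G (wv h v) := by
    funext v
    show (XX G h v : E d) = _
    rw [XX_coe, wv_eq h v, map_add]
  rw [this]
  have hc : Continuous (fun v : Fin d → ℝ => (wv h v : E d)) := by
    unfold wv
    refine (PiLp.continuous_toLp 2 _).comp ?_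
    refine continuous_pi (fun i => ?_)
    refine Fin.cases ?_ (fun k => ?_) i
    · simp only [Fin.cons_zero]
      exact continuous_const
    · simp only [Fin.cons_succ]
      fun_prop
  exact (hc.norm.inv₀ (fun v => norm_ne_zero_iff.2 (wv_ne h v))).smul (G.continuous.comp hc)

lemma XX_upper {d : ℕ} (G : Iso d) (h : ℝ) (hh : 0 < h) (v v' : Fin d → ℝ) :
    dist (XX G h v) (XX G h v') ≤ h * Real.sqrt (∑ k, (v k - v' k) ^ 2) := by
  rw [Subtype.dist_eq, dist_eq_norm, XX_coe, XX_coe, ← norm_hv_sub h hh]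
  have e0 : ∀ v, inner ℝ (G (EuclideanSpace.single 0 1)) (G (hv h v)) = 0 := by
    intro v
    rw [LinearIsometryEquiv.inner_map_map, hv_inner]
  have hp1 : ‖G (EuclideanSpace.single 0 1)‖ = 1 := by rw [G.norm_map]; simp
  have hA : ∀ v, ‖wv h v‖ ^ 2 = 1 + ‖G (hv h v)‖ ^ 2 := by
    intro v
    rw [G.norm_map]; exact wv_norm_sq h v
  have := gnom_upper (G (EuclideanSpace.single 0 1)) (G (hv h v)) (G (hv h v')) hp1 (e0 v) (e0 v')
    ‖wv h v‖ ‖wv h v'‖ (norm_pos_iff.2 (wv_ne h v)) (norm_pos_iff.2 (wv_ne h v')) (hA v) (hA v')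
  rw [← map_sub, G.norm_map] at this
  exact this

lemma XX_lower {d : ℕ} (hd : 1 ≤ d) (G : Iso d) (h : ℝ) (hh : 0 < h) (v v' : Fin d → ℝ)
    (hv1 : v ∈ Icc (0 : Fin d → ℝ) 1) (hv2 : v' ∈ Icc (0 : Fin d → ℝ) 1) :
    h / (1 + d * h ^ 2) * Real.sqrt (∑ k, (v k - v' k) ^ 2) ≤ dist (XX G h v) (XX G h v') := by
  rw [Subtype.dist_eq, dist_eq_norm, XX_coe, XX_coe, div_mul_eq_mul_div, ← norm_hv_sub h hh]
  have e0 : ∀ v, inner ℝ (G (EuclideanSpace.single 0 1)) (G (hv h v)) = 0 := by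
    intro v
    rw [LinearIsometryEquiv.inner_map_map, hv_inner]
  have hd' : (1 : ℝ) ≤ d := by exact_mod_cast hd
  have hρ : 0 < h * Real.sqrt d := mul_pos hh (Real.sqrt_pos.2 (by linarith))
  have hρ2 : (h * Real.sqrt d) ^ 2 = d * h ^ 2 := by
    rw [mul_pow, Real.sq_sqrt (by linarith)]; ring
  have hb : ∀ v ∈ Icc (0 : Fin d → ℝ) 1, ‖G (hv h v)‖ ≤ h * Real.sqrt d := by
    intro v hv1
    rw [G.norm_map]
    apply le_of_sq_le_sq _ hρ.le
    rw [hρ2]
    have := norm_hv_sq h hh v hv1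
    nlinarith [sq_nonneg h]
  have hp1 : ‖G (EuclideanSpace.single 0 1)‖ = 1 := by rw [G.norm_map]; simp
  have hA : ∀ v, ‖wv h v‖ ^ 2 = 1 + ‖G (hv h v)‖ ^ 2 := by
    intro v
    rw [G.norm_map]; exact wv_norm_sq h v
  have := gnom_lower (G (EuclideanSpace.single 0 1)) (G (hv h v)) (G (hv h v')) hp1 (e0 v) (e0 v')
    ‖wv h v‖ ‖wv h v'‖ (norm_pos_iff.2 (wv_ne h v)) (norm_pos_iff.2 (wv_ne h v')) (hA v) (hA v')
    (h * Real.sqrt d) hρ (hb v hv1) (hb v' hv2)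
  rw [hρ2, ← map_sub, G.norm_map] at this
  exact this

lemma XX_half {d : ℕ} (G : Iso d) (p : S d) (hG : G (EuclideanSpace.single 0 1) = (p : E d))
    (h : ℝ) : XX G h (fun _ => 1 / 2) = p := by
  have h1 : (wv h (fun _ : Fin d => (1 : ℝ) / 2)) = EuclideanSpace.single 0 1 := by
    rw [wv_eq]
    have : (hv h (fun _ : Fin d => (1 : ℝ) / 2)) = 0 := by
      ext i
      refine Fin.cases ?_ (fun k => ?_) i
      · simp [hv]
      · simp [hv]
    rw [this, zero_add]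
  unfold XX
  rw [h1, hG]
  exact lc_nrm_coe p

lemma XX_ball {d : ℕ} (hd : 1 ≤ d) (G : Iso d) (p : S d)
    (hG : G (EuclideanSpace.single 0 1) = (p : E d)) (h : ℝ) (hh : 0 < h) :
    XX G h '' (Icc (0 : Fin d → ℝ) 1) ⊆ Metric.closedBall p (d * h) := by
  rintro _ ⟨v, hv1, rfl⟩
  rw [Metric.mem_closedBall, ← XX_half G p hG h]
  refine (XX_upper G h hh v _).trans ?_
  have hd' : (1 : ℝ) ≤ d := by exact_mod_cast hd
  have h1 : Real.sqrt (∑ k : Fin d, (v k - 1 / 2) ^ 2) ≤ d := by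
    rw [Real.sqrt_le_left (by linarith)]
    calc ∑ k : Fin d, (v k - 1 / 2) ^ 2 ≤ ∑ _k : Fin d, (1 : ℝ) := by
          apply Finset.sum_le_sum
          intro k _
          have h1 := hv1.1 k
          have h2 := hv1.2 k
          simp only [Pi.zero_apply, Pi.one_apply] at h1 h2
          nlinarith
      _ = d := by simp
      _ ≤ (d : ℝ) ^ 2 := by nlinarith
  nlinarith

lemma XX_cover {d : ℕ} (G : Iso d) (p : S d)
    (hG : G (EuclideanSpace.single 0 1) = (p : E d)) (h : ℝ) (hh : 0 < h) (hh1 : h ≤ 1) :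
    Metric.closedBall p (h / 4) ⊆ XX G h '' (Icc (0 : Fin d → ℝ) 1) := by
  intro u hu
  rw [Metric.mem_closedBall, Subtype.dist_eq, dist_eq_norm] at hu
  obtain ⟨c, hc⟩ : ∃ c : E d, c = G.symm (u : E d) := ⟨_, rfl⟩
  have hGc : G c = (u : E d) := by rw [hc, LinearIsometryEquiv.apply_symm_apply]
  have hu1 : ‖c - EuclideanSpace.single 0 1‖ ≤ h / 4 := by
    rw [← G.norm_map, map_sub, hGc, hG]; exact hu
  have hcn : ‖c‖ = 1 := by rw [← G.norm_map, hGc]; simp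
  have hp1 : ‖(EuclideanSpace.single 0 1 : E d)‖ = 1 := by simp
  have hc0 : inner ℝ c (EuclideanSpace.single 0 1 : E d) = c 0 := by
    rw [EuclideanSpace.inner_single_right]; simp
  have hsq : ‖c - EuclideanSpace.single 0 1‖ ^ 2 = 2 - 2 * c 0 := by
    rw [norm_sub_sq_real, hcn, hp1, hc0]; ring
  have hz : 31 / 32 ≤ c 0 := by
    have : ‖c - EuclideanSpace.single 0 1‖ ^ 2 ≤ (h / 4) ^ 2 :=
      pow_le_pow_left₀ (norm_nonneg _) hu1 2
    nlinarith
  have hzp : 0 < c 0 := by linarith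
  have hk : ∀ k : Fin d, |c k.succ| ≤ h / 4 := by
    intro k
    have h1 := EuclideanSpace.norm_sq_eq (c - EuclideanSpace.single 0 1)
    have h2 : ‖(c - EuclideanSpace.single 0 1 : E d) k.succ‖ ^ 2 ≤
        ∑ i, ‖(c - EuclideanSpace.single 0 1 : E d) i‖ ^ 2 :=
      Finset.single_le_sum (f := fun i => ‖(c - EuclideanSpace.single 0 1 : E d) i‖ ^ 2)
        (fun i _ => sq_nonneg _) (Finset.mem_univ k.succ)
    have h3 : (c - EuclideanSpace.single 0 1 : E d) k.succ = c k.succ := by simp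
    rw [← h1, h3, Real.norm_eq_abs] at h2
    exact (abs_le_of_sq_le_sq' h2 (norm_nonneg _)).2.trans hu1 |> fun h => by
      simpa using h
  refine ⟨fun k => 1 / 2 + c k.succ / (c 0 * h), ⟨?_, ?_⟩, ?_⟩
  · intro k
    have h1 := (abs_le.1 (hk k)).1
    simp only [Pi.zero_apply]
    have : -(1 / 2 : ℝ) ≤ c k.succ / (c 0 * h) := by
      rw [le_div_iff₀ (by positivity)]
      nlinarith
    linarith
  · intro k
    have h1 := (abs_le.1 (hk k)).2
    simp only [Pi.one_apply]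
    have : c k.succ / (c 0 * h) ≤ 1 / 2 := by
      rw [div_le_iff₀ (by positivity)]
      nlinarith
    linarith
  · have hw : wv h (fun k : Fin d => 1 / 2 + c k.succ / (c 0 * h)) = (c 0)⁻¹ • c := by
      ext i
      refine Fin.cases ?_ (fun k => ?_) i
      · simp [wv, hzp.ne']
      · simp [wv]
        field_simp
    unfold XX
    rw [hw, map_smul, hGc, lc_nrm_smul _ (inv_pos.2 hzp), lc_nrm_coe]

/-- pyramid over the cube -/
def PP {d : ℕ} (G : Iso d) (h τ : ℝ) : Set (E d) :=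
  {x | ∃ (t : ℝ) (v : Fin d → ℝ), 0 < t ∧ t < τ ∧ v ∈ Icc (0 : Fin d → ℝ) 1 ∧
    x = t • G (wv h v)}

lemma PP_eq {d : ℕ} (G : Iso d) (h τ : ℝ) (hh : 0 < h) :
    PP G h τ = G.symm ⁻¹' {x : E d | (x 0, fun k : Fin d => x k.succ) ∈ Q2 d h τ} := by
  ext x
  constructor
  · rintro ⟨t, v, ht, htτ, hv1, rfl⟩
    show (_, _) ∈ Q2 d h τ
    rw [map_smul, LinearIsometryEquiv.symm_apply_apply]
    refine ⟨by simpa [wv] using ht, by simpa [wv] using htτ, fun k => ?_⟩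
    have h1 := hv1.1 k
    have h2 := hv1.2 k
    simp only [Pi.zero_apply, Pi.one_apply] at h1 h2
    have e : (t • wv h v : E d) k.succ = t * (h * (v k - 1 / 2)) := by simp [wv]
    have e0 : (t • wv h v : E d) 0 = t := by simp [wv]
    show |(t • wv h v : E d) k.succ| ≤ h * (t • wv h v : E d) 0 / 2
    rw [e, e0, abs_le]
    have hth : 0 < t * h := mul_pos ht hh
    constructor <;> nlinarith
  · intro hx
    obtain ⟨c, hc⟩ : ∃ c : E d, c = G.symm x := ⟨_, rfl⟩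
    have hGc : G c = x := by rw [hc, LinearIsometryEquiv.apply_symm_apply]
    have hx' : (c 0, fun k : Fin d => c k.succ) ∈ Q2 d h τ := by rw [hc]; exact hx
    obtain ⟨h1, h2, h3⟩ := hx'
    simp only at h1 h2 h3
    refine ⟨c 0, fun k => c k.succ / (c 0 * h) + 1 / 2, h1, h2, ⟨fun k => ?_, fun k => ?_⟩, ?_⟩
    · have h4 := (abs_le.1 (h3 k)).1
      simp only [Pi.zero_apply]
      have : -(1 / 2 : ℝ) ≤ c k.succ / (c 0 * h) := by
        rw [le_div_iff₀ (by positivity)]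
        nlinarith
      linarith
    · have h4 := (abs_le.1 (h3 k)).2
      simp only [Pi.one_apply]
      have : c k.succ / (c 0 * h) ≤ 1 / 2 := by
        rw [div_le_iff₀ (by positivity)]
        nlinarith
      linarith
    · rw [← hGc, ← map_smul]
      congr 1
      ext i
      refine Fin.cases ?_ (fun k => ?_) i
      · simp [wv]
      · simp [wv]
        field_simp

lemma PP_vol {d : ℕ} (G : Iso d) (h τ : ℝ) (hh : 0 < h) (hτ : 0 ≤ τ) :
    volume (PP G h τ) = ENNReal.ofReal (h ^ d * τ ^ (d + 1) / (d + 1)) := by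
  rw [PP_eq G h τ hh]
  have hQ1 : {x : E d | (x 0, fun k : Fin d => x k.succ) ∈ Q2 d h τ} =
      (MeasurableEquiv.toLp 2 (Fin (d + 1) → ℝ)).symm ⁻¹'
        ((MeasurableEquiv.piFinSuccAbove (fun _ : Fin (d + 1) => ℝ) 0) ⁻¹' (Q2 d h τ)) := by
    ext x
    rfl
  have hm1 : MeasurableSet ((MeasurableEquiv.piFinSuccAbove (fun _ : Fin (d + 1) => ℝ) 0) ⁻¹' (Q2 d h τ)) :=
    (MeasurableEquiv.measurable _) (Q2_meas d h τ)
  have hm2 : MeasurableSet {x : E d | (x 0, fun k : Fin d => x k.succ) ∈ Q2 d h τ} := by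
    rw [hQ1]
    exact (MeasurableEquiv.measurable _) hm1
  rw [(LinearIsometryEquiv.measurePreserving G.symm).measure_preimage hm2.nullMeasurableSet, hQ1,
    (EuclideanSpace.volume_preserving_symm_measurableEquiv_toLp (Fin (d + 1))).measure_preimage
      hm1.nullMeasurableSet,
    (volume_preserving_piFinSuccAbove (fun _ : Fin (d + 1) => ℝ) 0).measure_preimage
      (Q2_meas d h τ).nullMeasurableSet]
  exact vol_Q2 d h τ hh hτ

lemma om_eq (d : ℕ) : (volume : Measure (E d)).toSphere univ = ENNReal.ofReal (om d) := by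
  rw [Measure.toSphere_apply_univ, EuclideanSpace.volume_ball]
  simp only [ENNReal.ofReal_one, one_pow, one_mul, finrank_euclideanSpace, Fintype.card_fin]
  rw [← ENNReal.ofReal_natCast, ← ENNReal.ofReal_mul (by positivity)]
  congr 1
  unfold om
  have hn : ((d + 1 : ℕ) : ℝ) / 2 ≠ 0 := by positivity
  rw [Real.Gamma_add_one hn]
  have hg : Real.Gamma (((d + 1 : ℕ) : ℝ) / 2) ≠ 0 := (Real.Gamma_pos_of_pos (by positivity)).ne'
  have hs : Real.sqrt π ^ (d + 1) = π ^ (((d : ℝ) + 1) / 2) := by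
    rw [Real.sqrt_eq_rpow, ← Real.rpow_natCast, ← Real.rpow_mul Real.pi_pos.le]
    congr 1
    push_cast
    ring
  rw [hs]
  push_cast at hg ⊢
  field_simp

lemma om_pos (d : ℕ) : 0 < om d := by
  unfold om
  have := Real.Gamma_pos_of_pos (show 0 < ((d : ℝ) + 1) / 2 by positivity)
  have := Real.pi_pos
  positivity

lemma cone_sub {d : ℕ} (G : Iso d) (h : ℝ) :
    Ioo (0 : ℝ) 1 • (Subtype.val '' (XX G h '' (Icc (0 : Fin d → ℝ) 1))) ⊆ PP G h 1 := by
  rintro _ ⟨s, hs, _, ⟨_, ⟨v, hv1, rfl⟩, rfl⟩, rfl⟩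
  have hn1 : 1 ≤ ‖wv h v‖ := by
    have := wv_norm_sq h v
    nlinarith [sq_nonneg ‖hv h v‖, norm_nonneg (wv h v)]
  refine ⟨s * ‖wv h v‖⁻¹, v, mul_pos hs.1 (by positivity), ?_, hv1, ?_⟩
  · calc s * ‖wv h v‖⁻¹ ≤ s * 1 := by
          apply mul_le_mul_of_nonneg_left _ hs.1.le
          exact inv_le_one_of_one_le₀ hn1
      _ < 1 := by linarith [hs.2]
  · show s • (XX G h v : E d) = _
    rw [XX_coe, wv_eq h v, map_add, ← mul_smul]

lemma sub_cone {d : ℕ} (G : Iso d) (h : ℝ) (hh : 0 < h) (R : ℝ) (hR : 0 < R)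
    (hR2 : 1 + h ^ 2 * d / 4 ≤ R ^ 2) :
    PP G h R⁻¹ ⊆ Ioo (0 : ℝ) 1 • (Subtype.val '' (XX G h '' (Icc (0 : Fin d → ℝ) 1))) := by
  rintro _ ⟨t, v, ht, htR, hv1, rfl⟩
  have hn0 : 0 < ‖wv h v‖ := norm_pos_iff.2 (wv_ne h v)
  have hn1 : ‖wv h v‖ ≤ R := by
    have h1 := wv_norm_sq h v
    have h2 := norm_hv_sq h hh v hv1
    nlinarith
  refine ⟨t * ‖wv h v‖, ⟨by positivity, ?_⟩, _, ⟨_, ⟨v, hv1, rfl⟩, rfl⟩, ?_⟩
  · calc t * ‖wv h v‖ ≤ t * R := mul_le_mul_of_nonneg_left hn1 ht.le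
      _ < R⁻¹ * R := mul_lt_mul_of_pos_right htR hR
      _ = 1 := inv_mul_cancel₀ hR.ne'
  · show (t * ‖wv h v‖) • (XX G h v : E d) = _
    rw [XX_coe, wv_eq h v, map_add, ← mul_smul, mul_assoc, ← wv_eq h v, mul_inv_cancel₀ hn0.ne',
      mul_one]

theorem cube_chart (d : ℕ) (hd : 1 ≤ d) (p : S d) (h : ℝ) (hh : 0 < h) (hh1 : h ≤ 1) :
    ∃ X : (Fin d → ℝ) → S d, Continuous X ∧
      (∀ v ∈ Icc (0 : Fin d → ℝ) 1, ∀ v' ∈ Icc (0 : Fin d → ℝ) 1,
        h / (1 + d * h ^ 2) * Real.sqrt (∑ k, (v k - v' k) ^ 2) ≤ dist (X v) (X v') ∧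
        dist (X v) (X v') ≤ h * Real.sqrt (∑ k, (v k - v' k) ^ 2)) ∧
      X '' (Icc (0 : Fin d → ℝ) 1) ⊆ Metric.closedBall p (d * h) ∧
      Metric.closedBall p (h / 4) ⊆ X '' (Icc (0 : Fin d → ℝ) 1) ∧
      h ^ d / om d * (1 + d * h ^ 2) ^ (-(((d:ℝ) + 1) / 2)) ≤
        (sg d).real (X '' (Icc (0 : Fin d → ℝ) 1)) ∧
      (sg d).real (X '' (Icc (0 : Fin d → ℝ) 1)) ≤ h ^ d / om d := by
  obtain ⟨G, hG⟩ := exists_iso p
  have hom := om_pos d
  obtain ⟨A, hA⟩ : ∃ A : Set (S d), A = XX G h '' (Icc (0 : Fin d → ℝ) 1) := ⟨_, rfl⟩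
  have hAm : MeasurableSet A := by
    rw [hA]
    exact (isCompact_Icc.image (XX_cont G h)).isClosed.measurableSet
  have hsg : (sg d).real A = (om d)⁻¹ * ((d + 1) * (volume : Measure (E d)).real
      (Ioo (0 : ℝ) 1 • (Subtype.val '' A))) := by
    unfold sg Measure.real
    rw [Measure.smul_apply, om_eq, Measure.toSphere_apply' _ hAm, smul_eq_mul, ENNReal.toReal_mul,
      ENNReal.toReal_mul, ENNReal.toReal_inv, ENNReal.toReal_ofReal hom.le,
      ENNReal.toReal_natCast]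
    simp
  have hup : (volume : Measure (E d)).real (Ioo (0 : ℝ) 1 • (Subtype.val '' A)) ≤ h ^ d / (d + 1) := by
    have h1 : volume (PP G h 1) = ENNReal.ofReal (h ^ d / (d + 1)) := by
      rw [PP_vol G h 1 hh zero_le_one, one_pow, mul_one]
    have h2 := measure_mono (μ := (volume : Measure (E d))) (cone_sub G h)
    rw [h1, ← hA] at h2
    unfold Measure.real
    exact ENNReal.toReal_le_of_le_ofReal (by positivity) h2
  have hfin : volume (Ioo (0 : ℝ) 1 • (Subtype.val '' A) : Set (E d)) ≠ ⊤ := by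
    have h1 : volume (PP G h 1) = ENNReal.ofReal (h ^ d / (d + 1)) := by
      rw [PP_vol G h 1 hh zero_le_one, one_pow, mul_one]
    have h2 := measure_mono (μ := (volume : Measure (E d))) (cone_sub G h)
    rw [h1, ← hA] at h2
    exact (h2.trans_lt ENNReal.ofReal_lt_top).ne
  refine ⟨XX G h, XX_cont G h, fun v hv1 v' hv2 => ⟨XX_lower hd G h hh v v' hv1 hv2,
    XX_upper G h hh v v'⟩, XX_ball hd G p hG h hh, XX_cover G p hG h hh hh1, ?_, ?_⟩
  · rw [← hA, hsg]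
    obtain ⟨R, hR⟩ : ∃ R, R = Real.sqrt (1 + d * h ^ 2) := ⟨_, rfl⟩
    have hb : (0 : ℝ) < 1 + d * h ^ 2 := by positivity
    have hR0 : 0 < R := by rw [hR]; exact Real.sqrt_pos.2 hb
    have hR2 : R ^ 2 = 1 + d * h ^ 2 := by rw [hR, Real.sq_sqrt hb.le]
    have h1 := measure_mono (μ := (volume : Measure (E d))) (sub_cone G h hh R hR0 (by
      rw [hR2]
      have : (0 : ℝ) ≤ d * h ^ 2 := by positivity
      nlinarith))
    rw [PP_vol G h R⁻¹ hh (by positivity), ← hA] at h1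
    have h2 : h ^ d * R⁻¹ ^ (d + 1) / (d + 1) ≤
        (volume : Measure (E d)).real (Ioo (0 : ℝ) 1 • (Subtype.val '' A)) :=
      (ENNReal.ofReal_le_iff_le_toReal hfin).1 h1
    have h3 : R⁻¹ ^ (d + 1) = (1 + d * h ^ 2) ^ (-(((d:ℝ) + 1) / 2)) := by
      rw [hR, Real.sqrt_eq_rpow, ← Real.rpow_neg hb.le, ← Real.rpow_natCast, ← Real.rpow_mul hb.le]
      congr 1
      push_cast
      ring
    rw [h3] at h2
    calc h ^ d / om d * (1 + d * h ^ 2) ^ (-(((d:ℝ) + 1) / 2)) =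
        (om d)⁻¹ * ((d + 1) * (h ^ d * (1 + d * h ^ 2) ^ (-(((d:ℝ) + 1) / 2)) / (d + 1))) := by
          field_simp
      _ ≤ _ := by
          apply mul_le_mul_of_nonneg_left _ (inv_pos.2 hom).le
          apply mul_le_mul_of_nonneg_left h2 (by positivity)
  · rw [← hA, hsg]
    calc (om d)⁻¹ * ((d + 1) * (volume : Measure (E d)).real (Ioo (0 : ℝ) 1 • (Subtype.val '' A)))
        ≤ (om d)⁻¹ * ((d + 1) * (h ^ d / (d + 1))) := by
          apply mul_le_mul_of_nonneg_left _ (inv_pos.2 hom).le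
          apply mul_le_mul_of_nonneg_left hup (by positivity)
      _ = h ^ d / om d := by
          field_simp

end Pool.Agent.TH284.J239
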