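import Mathlib

set_option autoImplicit false
open Matrix Filter Topology
open scoped Matrix.Norms.Operator NNReal ENNReal

namespace Pool.Agent.TH284.SA

variable {d : ℕ}

theorem det_ne_zero (R : Matrix (Fin d) (Fin d) ℤ)
    (h : ∀ z : ℂ, (R.map (Int.castRingHom ℂ)).charpoly.IsRoot z → 1 < ‖z‖) : R.det ≠ 0 := by
  intro h0
  have h2 : (R.map (Int.castRingHom ℂ)).det = 0 := by
    have := (RingHom.map_det (Int.castRingHom ℂ) R)
    rw [h0, map_zero] at this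
    exact this.symm
  have h1 : ((R.map (Int.castRingHom ℂ)).charpoly).IsRoot 0 := by
    rw [Matrix.det_eq_sign_charpoly_coeff] at h2
    have h3 : (R.map (Int.castRingHom ℂ)).charpoly.coeff 0 = 0 := by
      rcases mul_eq_zero.1 h2 with h4 | h4
      · exact absurd h4 (pow_ne_zero _ (by norm_num))
      · exact h4
    rw [Polynomial.IsRoot.def, ← Polynomial.coeff_zero_eq_eval_zero]
    exact h3
  have := h 0 h1
  simp at this
  linarith

/-- the inverse matrix over a field -/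
noncomputable def inv (R : Matrix (Fin d) (Fin d) ℤ) : Matrix (Fin d) (Fin d) ℝ :=
  (R.map (Int.castRingHom ℝ))⁻¹

theorem isUnit_det_real (R : Matrix (Fin d) (Fin d) ℤ) (h : R.det ≠ 0) :
    IsUnit (R.map (Int.castRingHom ℝ)).det := by
  have := (RingHom.map_det (Int.castRingHom ℝ) R)
  rw [isUnit_iff_ne_zero]
  have h1 : (R.map (Int.castRingHom ℝ)).det = (R.det : ℝ) := this.symm
  rw [h1]
  exact_mod_cast h

theorem inv_mul_self (R : Matrix (Fin d) (Fin d) ℤ) (h : R.det ≠ 0) :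
    inv R * R.map (Int.castRingHom ℝ) = 1 :=
  Matrix.nonsing_inv_mul _ (isUnit_det_real R h)

theorem mul_inv_self (R : Matrix (Fin d) (Fin d) ℤ) (h : R.det ≠ 0) :
    R.map (Int.castRingHom ℝ) * inv R = 1 :=
  Matrix.mul_nonsing_inv _ (isUnit_det_real R h)

theorem complex_pow_tendsto (C D : Matrix (Fin d) (Fin d) ℂ) (hCD : C * D = 1)
    (hroot : ∀ z : ℂ, D.charpoly.IsRoot z → 1 < ‖z‖) :
    Tendsto (fun n : ℕ => ‖C ^ n‖) atTop (𝓝 0) := by
  rcases Nat.eq_zero_or_pos d with hd | hd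
  · subst hd
    have : ∀ n : ℕ, ‖C ^ n‖ = 0 := fun n => by
      rw [Subsingleton.elim (C ^ n) 0, norm_zero]
    simp only [this]
    exact tendsto_const_nhds
  have : Nonempty (Fin d) := ⟨⟨0, hd⟩⟩
  have : Nontrivial (Matrix (Fin d) (Fin d) ℂ) := inferInstance
  have : CompleteSpace (Matrix (Fin d) (Fin d) ℂ) := FiniteDimensional.complete ℂ _
  have hDC : D * C = 1 := mul_eq_one_comm.1 hCD
  have hspec : ∀ z ∈ spectrum ℂ C, ‖z‖₊ < 1 := by
    intro z hz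
    have hz0 : z ≠ 0 := by
      rintro rfl
      rw [spectrum.zero_mem_iff] at hz
      exact hz (IsUnit.of_mul_eq_one D hCD)
    have h1 : z⁻¹ ∈ spectrum ℂ D := by
      let u : (Matrix (Fin d) (Fin d) ℂ)ˣ := ⟨C, D, hCD, hDC⟩
      have h2 : z ∈ spectrum ℂ (u : Matrix (Fin d) (Fin d) ℂ) := hz
      have h3 := (spectrum.inv_mem_iff (r := Units.mk0 z hz0) (a := u)).1
      have h4 : ((Units.mk0 z hz0 : ℂˣ) : ℂ) ∈ spectrum ℂ (u : Matrix (Fin d) (Fin d) ℂ) := h2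
      have h6 : (((Units.mk0 z hz0)⁻¹ : ℂˣ) : ℂ) = z⁻¹ := rfl
      rw [← h6]
      exact h3 h4
    have h2 := hroot _ (Matrix.mem_spectrum_iff_isRoot_charpoly.1 h1)
    rw [norm_inv] at h2
    have h3 : 0 < ‖z‖ := norm_pos_iff.2 hz0
    have h4 : ‖z‖ < 1 := by
      by_contra hcon
      push Not at hcon
      have := inv_le_one_of_one_le₀ hcon
      linarith
    exact_mod_cast h4
  have hr : spectralRadius ℂ C < (1 : ℝ≥0) := spectrum.spectralRadius_lt_of_forall_lt C hspec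
  obtain ⟨r, hr1, hr2⟩ := ENNReal.lt_iff_exists_nnreal_btwn.1 hr
  have hg := spectrum.pow_nnnorm_pow_one_div_tendsto_nhds_spectralRadius C
  have hev : ∀ᶠ n : ℕ in atTop, (‖C ^ n‖₊ : ℝ≥0∞) ^ (1 / n : ℝ) < r := hg.eventually_lt_const hr1
  have hr2' : r < 1 := by exact_mod_cast hr2
  have hb : ∀ᶠ n : ℕ in atTop, ‖C ^ n‖ ≤ (r : ℝ) ^ n := by
    filter_upwards [hev, eventually_gt_atTop 0] with n hn hn0
    have hn0' : (0 : ℝ) < n := by exact_mod_cast hn0
    have h1 : ((‖C ^ n‖₊ : ℝ≥0∞) ^ (1 / n : ℝ)) ^ (n : ℝ) ≤ (r : ℝ≥0∞) ^ (n : ℝ) :=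
      ENNReal.rpow_le_rpow hn.le hn0'.le
    rw [← ENNReal.rpow_mul, one_div, inv_mul_cancel₀ hn0'.ne', ENNReal.rpow_one,
      ENNReal.rpow_natCast] at h1
    have h2 : ‖C ^ n‖₊ ≤ r ^ n := by exact_mod_cast h1
    exact_mod_cast h2
  have hz : Tendsto (fun n : ℕ => (r : ℝ) ^ n) atTop (𝓝 0) :=
    tendsto_pow_atTop_nhds_zero_of_lt_one r.2 (by exact_mod_cast hr2')
  exact squeeze_zero' (Eventually.of_forall fun n => norm_nonneg _) hb hz

/-- powers of the inverse of an expanding integer matrix tend to zero -/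
theorem inv_pow_small (R : Matrix (Fin d) (Fin d) ℤ)
    (h : ∀ z : ℂ, (R.map (Int.castRingHom ℂ)).charpoly.IsRoot z → 1 < ‖z‖) (ε : ℝ) (hε : 0 < ε) :
    ∃ n0 : ℕ, ∀ n, n0 ≤ n → ∀ x : Fin d → ℝ, ‖(inv R) ^ n *ᵥ x‖ ≤ ε * ‖x‖ := by
  have hdet := det_ne_zero R h
  set C : Matrix (Fin d) (Fin d) ℂ := (inv R).map (algebraMap ℝ ℂ) with hC
  have hCD : C * R.map (Int.castRingHom ℂ) = 1 := by
    have h1 : R.map (Int.castRingHom ℂ) = (R.map (Int.castRingHom ℝ)).map (algebraMap ℝ ℂ) := by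
      ext i j
      simp
    rw [h1, hC, ← Matrix.map_mul, inv_mul_self R hdet]
    exact Matrix.map_one _ (map_zero _) (map_one _)
  have ht := complex_pow_tendsto C _ hCD h
  have hev := ht.eventually_lt_const hε
  obtain ⟨n0, hn0⟩ := eventually_atTop.1 hev
  refine ⟨n0, fun n hn x => ?_⟩
  have h1 := (hn0 n hn).le
  have h2 : ‖C ^ n *ᵥ (fun i => ((x i : ℝ) : ℂ))‖ ≤ ‖C ^ n‖ * ‖(fun i => ((x i : ℝ) : ℂ))‖ :=
    Matrix.linfty_opNorm_mulVec _ _
  have h3 : C ^ n *ᵥ (fun i => ((x i : ℝ) : ℂ)) = fun i => ((((inv R) ^ n *ᵥ x) i : ℝ) : ℂ) := by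
    have h4 : C ^ n = ((inv R) ^ n).map (algebraMap ℝ ℂ) := by
      rw [hC]
      exact (Matrix.map_pow (inv R) (algebraMap ℝ ℂ) n).symm
    rw [h4]
    funext i
    simp [Matrix.mulVec, dotProduct]
  have hnorm : ∀ y : Fin d → ℝ, ‖(fun i => ((y i : ℝ) : ℂ))‖ = ‖y‖ := by
    intro y
    simp only [Pi.norm_def]
    congr 1
    congr 1
    funext i
    simp
  rw [h3, hnorm, hnorm] at h2
  exact h2.trans (mul_le_mul_of_nonneg_right h1 (norm_nonneg _))

end Pool.Agent.TH284.SA
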