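import Pool.Agent.TH284.Words

set_option autoImplicit false
open MeasureTheory Matrix Filter Topology
open scoped ENNReal

namespace Pool.Agent.TH284.SA

variable {d : ℕ} (R : Matrix (Fin d) (Fin d) ℤ) (B : Finset (Fin d → ℤ))

/-- invariance -/
def Inv (μ : Measure (Fin d → ℝ)) : Prop :=
  ∀ G, MeasurableSet G → μ G = (B.card : ℝ≥0∞)⁻¹ * ∑ b ∈ B, μ (phi R b ⁻¹' G)

variable {R B} {μ : Measure (Fin d → ℝ)}

theorem Inv.words (h : Inv R B μ) (n : ℕ) (G : Set (Fin d → ℝ)) (hG : MeasurableSet G) :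
    μ G = ((B.card : ℝ≥0∞)⁻¹) ^ n * ∑ w ∈ W B n, μ (phiw R w ⁻¹' G) := by
  induction n generalizing G with
  | zero =>
    have : phiw R [] ⁻¹' G = G := rfl
    simp [W, this]
  | succ n ih =>
    rw [h G hG, sum_W_succ, pow_succ', mul_assoc]
    congr 1
    rw [Finset.mul_sum]
    refine Finset.sum_congr rfl fun b _ => ?_
    rw [ih _ ((continuous_phi R b).measurable hG)]
    rfl

theorem Inv.card_ne_zero [IsProbabilityMeasure μ] (h : Inv R B μ) : (B.card : ℝ≥0∞) ≠ 0 := by
  intro h0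
  have hB : B = ∅ := by
    have : B.card = 0 := by exact_mod_cast h0
    exact Finset.card_eq_zero.1 this
  have h1 := h Set.univ MeasurableSet.univ
  rw [hB] at h1
  simp at h1

/-- `N ^ n * μ G = ∑ w, μ (φ_w⁻¹ G)` -/
theorem Inv.words' [IsProbabilityMeasure μ] (h : Inv R B μ) (n : ℕ) (G : Set (Fin d → ℝ))
    (hG : MeasurableSet G) :
    (B.card : ℝ≥0∞) ^ n * μ G = ∑ w ∈ W B n, μ (phiw R w ⁻¹' G) := by
  rw [h.words n G hG, ← mul_assoc, ← mul_pow,
    ENNReal.mul_inv_cancel h.card_ne_zero (ENNReal.natCast_ne_top _), one_pow, one_mul]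

/-- two different words -/
theorem Inv.two [IsProbabilityMeasure μ] (h : Inv R B μ) (n : ℕ) (G : Set (Fin d → ℝ))
    (hG : MeasurableSet G) (w w' : List (Fin d → ℤ)) (hw : w ∈ W B n) (hw' : w' ∈ W B n)
    (hne : w ≠ w') :
    μ (phiw R w ⁻¹' G) + μ (phiw R w' ⁻¹' G) ≤ (B.card : ℝ≥0∞) ^ n * μ G := by
  rw [h.words' n G hG]
  have h1 : ({w, w'} : Finset (List (Fin d → ℤ))) ⊆ W B n := by
    intro z hz
    rw [Finset.mem_insert, Finset.mem_singleton] at hz
    rcases hz with rfl | rfl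
    · exact hw
    · exact hw'
  have h2 := Finset.sum_le_sum_of_subset (f := fun w => μ (phiw R w ⁻¹' G)) h1
  rwa [Finset.sum_pair hne] at h2

theorem Inv.one [IsProbabilityMeasure μ] (h : Inv R B μ) (n : ℕ) (G : Set (Fin d → ℝ))
    (hG : MeasurableSet G) (w : List (Fin d → ℤ)) (hw : w ∈ W B n) :
    μ (phiw R w ⁻¹' G) ≤ (B.card : ℝ≥0∞) ^ n * μ G := by
  rw [h.words' n G hG]
  exact Finset.single_le_sum (f := fun w => μ (phiw R w ⁻¹' G)) (fun _ _ => bot_le) hw

variable {T : Set (Fin d → ℝ)}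

theorem phiw_mem (hT : T = ⋃ b ∈ B, phi R b '' T) (n : ℕ) (w : List (Fin d → ℤ))
    (hw : w ∈ W B n) (x : Fin d → ℝ) (hx : x ∈ T) : phiw R w x ∈ T := by
  induction n generalizing w with
  | zero =>
    rw [W, Finset.mem_singleton] at hw
    rw [hw]
    exact hx
  | succ n ih =>
    rw [W, Finset.mem_image] at hw
    obtain ⟨⟨b, u⟩, h1, rfl⟩ := hw
    rw [Finset.mem_product] at h1
    have h2 := ih u h1.2
    rw [hT]
    simp only [Set.mem_iUnion]
    exact ⟨b, h1.1, _, h2, rfl⟩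

theorem exists_word (hT : T = ⋃ b ∈ B, phi R b '' T) (n : ℕ) (x : Fin d → ℝ) (hx : x ∈ T) :
    ∃ w ∈ W B n, ∃ y ∈ T, phiw R w y = x := by
  induction n generalizing x with
  | zero => exact ⟨[], by simp [W], x, hx, rfl⟩
  | succ n ih =>
    have hx' := hx
    rw [hT] at hx'
    simp only [Set.mem_iUnion] at hx'
    obtain ⟨b, hb, y, hy, hyx⟩ := hx'
    obtain ⟨w, hw, z, hz, hzy⟩ := ih y hy
    refine ⟨b :: w, ?_, z, hz, ?_⟩
    · rw [W, Finset.mem_image]
      exact ⟨(b, w), Finset.mem_product.2 ⟨hb, hw⟩, rfl⟩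
    · rw [phiw, hzy, hyx]

theorem phiw_sub (hdet : R.det ≠ 0) (w : List (Fin d → ℤ)) (x y : Fin d → ℝ) :
    phiw R w x - phiw R w y = inv R ^ w.length *ᵥ (x - y) := by
  rw [phiw_eq R hdet, phiw_eq R hdet, ← Matrix.mulVec_sub]
  congr 1
  abel

/-- the measure lives on the attractor -/
theorem measure_compl [IsProbabilityMeasure μ] (h : Inv R B μ)
    (hR : ∀ z : ℂ, (R.map (Int.castRingHom ℂ)).charpoly.IsRoot z → 1 < ‖z‖)
    (hTc : IsCompact T) (hTn : T.Nonempty) (hT : T = ⋃ b ∈ B, phi R b '' T) : μ Tᶜ = 0 := by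
  have hdet := det_ne_zero R hR
  -- far sets are null
  have key : ∀ ε : ℝ, 0 < ε → μ {x | ε ≤ Metric.infDist x T} = 0 := by
    intro ε hε
    have hcl : ∀ r : ℝ, MeasurableSet {x : Fin d → ℝ | r ≤ Metric.infDist x T} := fun r =>
      (isClosed_le continuous_const (Metric.continuous_infDist_pt T)).measurableSet
    have h1 : ∀ k : ℕ, μ {x | ε ≤ Metric.infDist x T} ≤ μ {x | (k : ℝ) ≤ Metric.infDist x T} := by
      intro k
      obtain ⟨n, hn⟩ := inv_pow_small R hR (ε / (k + 1)) (by positivity)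
      have hn' := hn n le_rfl
      rw [h.words n _ (hcl ε)]
      have h2 : ∀ w ∈ W B n, μ (phiw R w ⁻¹' {x | ε ≤ Metric.infDist x T}) ≤
          μ {x | (k : ℝ) ≤ Metric.infDist x T} := by
        intro w hw
        refine measure_mono fun x hx => ?_
        have hx' : ε ≤ Metric.infDist (phiw R w x) T := hx
        obtain ⟨t, ht, htx⟩ := hTc.exists_infDist_eq_dist hTn x
        have h3 : Metric.infDist (phiw R w x) T ≤ dist (phiw R w x) (phiw R w t) :=
          Metric.infDist_le_dist_of_mem (phiw_mem hT n w hw t ht)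
        rw [dist_eq_norm, phiw_sub hdet, ((mem_W B n w).1 hw).1] at h3
        have h4 := hn' (x - t)
        rw [← dist_eq_norm, ← htx] at h4
        have h5 : ε ≤ ε / (k + 1) * Metric.infDist x T := hx'.trans (h3.trans h4)
        have h6 : (k : ℝ) + 1 ≤ Metric.infDist x T := by
          by_contra hcon
          push Not at hcon
          have h7 : ε / (k + 1) * Metric.infDist x T < ε / (k + 1) * (k + 1) :=
            mul_lt_mul_of_pos_left hcon (by positivity)
          rw [div_mul_cancel₀ _ (by positivity)] at h7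
          linarith
        show (k : ℝ) ≤ Metric.infDist x T
        linarith
      calc (B.card : ℝ≥0∞)⁻¹ ^ n * ∑ w ∈ W B n, μ (phiw R w ⁻¹' {x | ε ≤ Metric.infDist x T})
          ≤ (B.card : ℝ≥0∞)⁻¹ ^ n * ∑ w ∈ W B n, μ {x | (k : ℝ) ≤ Metric.infDist x T} := by
            exact mul_le_mul' le_rfl (Finset.sum_le_sum fun w hw => h2 w hw)
        _ = μ {x | (k : ℝ) ≤ Metric.infDist x T} := by
            rw [Finset.sum_const, card_W, nsmul_eq_mul, Nat.cast_pow, ← mul_assoc, ← mul_pow,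
              ENNReal.inv_mul_cancel h.card_ne_zero (ENNReal.natCast_ne_top _), one_pow, one_mul]
    have h2 : Tendsto (fun k : ℕ => μ {x | (k : ℝ) ≤ Metric.infDist x T}) atTop
        (𝓝 (μ (⋂ k : ℕ, {x | (k : ℝ) ≤ Metric.infDist x T}))) := by
      refine tendsto_measure_iInter_atTop (fun k => (hcl k).nullMeasurableSet) ?_
        ⟨0, measure_ne_top _ _⟩
      intro i j hij x hx
      have hij' : (i : ℝ) ≤ j := by exact_mod_cast hij
      exact hij'.trans hx
    have h3 : (⋂ k : ℕ, {x : Fin d → ℝ | (k : ℝ) ≤ Metric.infDist x T}) = ∅ := by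
      rw [Set.eq_empty_iff_forall_notMem]
      intro x hx
      rw [Set.mem_iInter] at hx
      obtain ⟨k, hk⟩ := exists_nat_gt (Metric.infDist x T)
      exact absurd (hx k) (not_le.2 hk)
    rw [h3, measure_empty] at h2
    exact le_antisymm (ge_of_tendsto' h2 h1) bot_le
  have hsub : Tᶜ ⊆ ⋃ k : ℕ, {x | 1 / ((k : ℝ) + 1) ≤ Metric.infDist x T} := by
    intro x hx
    have h1 : 0 < Metric.infDist x T :=
      (hTc.isClosed.notMem_iff_infDist_pos hTn).1 hx
    obtain ⟨k, hk⟩ := exists_nat_one_div_lt h1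
    exact Set.mem_iUnion.2 ⟨k, hk.le⟩
  refine measure_mono_null hsub ?_
  rw [measure_iUnion_null_iff]
  intro k
  exact key _ (by positivity)

/-- open sets meeting the attractor have positive measure -/
theorem measure_open_pos [IsProbabilityMeasure μ] (h : Inv R B μ)
    (hR : ∀ z : ℂ, (R.map (Int.castRingHom ℂ)).charpoly.IsRoot z → 1 < ‖z‖)
    (hTc : IsCompact T) (hTn : T.Nonempty) (hT : T = ⋃ b ∈ B, phi R b '' T)
    (O : Set (Fin d → ℝ)) (hO : IsOpen O) (x : Fin d → ℝ) (hxO : x ∈ O) (hxT : x ∈ T) :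
    μ O ≠ 0 := by
  have hdet := det_ne_zero R hR
  obtain ⟨ε, hε, hball⟩ := Metric.isOpen_iff.1 hO x hxO
  obtain ⟨D, hD⟩ := hTc.isBounded.exists_norm_le
  have hD0 : 0 ≤ D := (norm_nonneg _).trans (hD x hxT)
  obtain ⟨n, hn⟩ := inv_pow_small R hR (ε / (2 * D + 1) / 2) (by positivity)
  obtain ⟨w, hw, y, hy, hyx⟩ := exists_word hT n x hxT
  have h1 : T ⊆ phiw R w ⁻¹' O := by
    intro z hz
    apply hball
    rw [Metric.mem_ball, dist_eq_norm, ← hyx, phiw_sub hdet, ((mem_W B n w).1 hw).1]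
    refine (hn n le_rfl (z - y)).trans_lt ?_
    have h2 : ‖z - y‖ ≤ 2 * D := by
      have := norm_sub_le z y
      have := hD z hz
      have := hD y hy
      linarith
    have h3 : ε / (2 * D + 1) / 2 * ‖z - y‖ ≤ ε / (2 * D + 1) / 2 * (2 * D + 1) :=
      mul_le_mul_of_nonneg_left (by linarith) (by positivity)
    have h4 : ε / (2 * D + 1) / 2 * (2 * D + 1) = ε / 2 := by
      field_simp
    linarith
  have h2 := h.one n O hO.measurableSet w hw
  intro h0
  rw [h0, mul_zero] at h2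
  have h3 : μ T = 0 := le_antisymm ((measure_mono h1).trans h2) bot_le
  have h4 := measure_compl h hR hTc hTn hT
  have h5 : μ Set.univ ≤ μ T + μ Tᶜ := by
    rw [← Set.union_compl_self T]
    exact measure_union_le _ _
  rw [h3, h4, measure_univ] at h5
  simp at h5

end Pool.Agent.TH284.SA
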