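import Pool.Agent.TH284.Meas

set_option autoImplicit false
open MeasureTheory Matrix Filter Topology
open scoped ENNReal

namespace Pool.Agent.TH284.SA

variable {d : ℕ} {R : Matrix (Fin d) (Fin d) ℤ} {B : Finset (Fin d → ℤ)}
  {μ : Measure (Fin d → ℝ)} {T : Set (Fin d → ℝ)}

/-- a functional which does not vanish on finitely many nonzero integer vectors -/
theorem exists_generic (S : Finset (Fin d → ℤ)) (hS : ∀ s ∈ S, s ≠ 0) :
    ∃ v : Fin d → ℝ, ∀ s ∈ S, v ⬝ᵥ toR s ≠ 0 := by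
  classical
  let P : (Fin d → ℤ) → Polynomial ℝ := fun s =>
    ∑ i : Fin d, Polynomial.monomial (i : ℕ) ((s i : ℤ) : ℝ)
  have hP : ∀ s ∈ S, P s ≠ 0 := by
    intro s hs h0
    apply hS s hs
    funext i
    have h1 : (P s).coeff (i : ℕ) = 0 := by rw [h0, Polynomial.coeff_zero]
    simp only [P, Polynomial.finsetSum_coeff, Polynomial.coeff_monomial] at h1
    rw [Finset.sum_eq_single i] at h1
    · simpa using h1
    · intro j _ hj
      rw [if_neg]
      intro h2
      exact hj (Fin.ext h2)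
    · intro hi
      exact absurd (Finset.mem_univ i) hi
  have hQ : (∏ s ∈ S, P s) ≠ 0 := Finset.prod_ne_zero_iff.2 hP
  obtain ⟨t, ht⟩ : ∃ t : ℝ, (∏ s ∈ S, P s).eval t ≠ 0 := by
    by_contra hcon
    push Not at hcon
    exact hQ (Polynomial.funext fun t => by rw [hcon t, Polynomial.eval_zero])
  refine ⟨fun i => t ^ (i : ℕ), fun s hs h0 => ht ?_⟩
  rw [Polynomial.eval_prod]
  refine Finset.prod_eq_zero hs ?_
  simp only [P, Polynomial.eval_finsetSum, Polynomial.eval_monomial]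
  rw [← h0]
  simp only [dotProduct, toR]
  exact Finset.sum_congr rfl fun i _ => mul_comm _ _

theorem exists_max_word (hB : B.Nonempty) (v : Fin d → ℝ) (n : ℕ)
    (hv : ∀ k < n, ∀ b ∈ B, ∀ b' ∈ B, b ≠ b' →
      v ⬝ᵥ toR (R ^ k *ᵥ b) ≠ v ⬝ᵥ toR (R ^ k *ᵥ b')) (k : ℕ) (hk : k ≤ n) :
    ∃ ws ∈ W B k, ∀ w ∈ W B k, w ≠ ws → v ⬝ᵥ toR (code R w) < v ⬝ᵥ toR (code R ws) := by
  induction k with
  | zero =>
    refine ⟨[], by simp [W], fun w hw hne => ?_⟩
    rw [W, Finset.mem_singleton] at hw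
    exact absurd hw hne
  | succ k ih =>
    obtain ⟨ws, hws, hmax⟩ := ih (Nat.le_of_succ_le hk)
    obtain ⟨bs, hbs, hbmax⟩ := Finset.exists_max_image B (fun b => v ⬝ᵥ toR (R ^ k *ᵥ b)) hB
    refine ⟨bs :: ws, ?_, ?_⟩
    · rw [W, Finset.mem_image]
      exact ⟨(bs, ws), Finset.mem_product.2 ⟨hbs, hws⟩, rfl⟩
    · intro w hw hne
      rw [W, Finset.mem_image] at hw
      obtain ⟨⟨b, u⟩, hbu, rfl⟩ := hw
      rw [Finset.mem_product] at hbu
      have hlu := ((mem_W B k u).1 hbu.2).1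
      have hlw := ((mem_W B k ws).1 hws).1
      simp only [code, toR_add, dotProduct_add, hlu, hlw]
      have h1 : v ⬝ᵥ toR (code R u) ≤ v ⬝ᵥ toR (code R ws) := by
        by_cases hu : u = ws
        · rw [hu]
        · exact (hmax u hbu.2 hu).le
      have h2 : v ⬝ᵥ toR (R ^ k *ᵥ b) ≤ v ⬝ᵥ toR (R ^ k *ᵥ bs) := hbmax b hbu.1
      by_cases hb : b = bs
      · have hu : u ≠ ws := by
          rintro rfl
          exact hne (by rw [hb])
        have := hmax u hbu.2 hu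
        linarith
      · have h3 := hv k (Nat.lt_of_succ_le hk) b hbu.1 bs hbs hb
        have h4 := lt_of_le_of_ne h2 h3
        linarith

/-- A spectral self-affine measure has no exact overlaps. -/
theorem no_exact [IsProbabilityMeasure μ] (h : Inv R B μ)
    (hR : ∀ z : ℂ, (R.map (Int.castRingHom ℂ)).charpoly.IsRoot z → 1 < ‖z‖)
    (Λ : Set (Fin d → ℝ)) (e : Λ → Lp ℂ 2 μ)
    (he : ∀ l : Λ, (e l : (Fin d → ℝ) → ℂ) =ᵐ[μ] ex (l : Fin d → ℝ))
    (ho : Orthonormal ℂ e)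
    (hs : (Submodule.span ℂ (Set.range e)).topologicalClosure = ⊤)
    (hTc : IsCompact T) (hTn : T.Nonempty) (hT : T = ⋃ b ∈ B, phi R b '' T)
    (n : ℕ) (w w' : List (Fin d → ℤ)) (hw : w ∈ W B n) (hw' : w' ∈ W B n)
    (hcode : code R w = code R w') : w = w' := by
  classical
  by_contra hne
  have hdet := det_ne_zero R hR
  have hN0 := h.card_ne_zero
  have hNt : (B.card : ℝ≥0∞) ≠ ∞ := ENNReal.natCast_ne_top _
  have hB : B.Nonempty := by
    rw [← Finset.card_pos, Nat.pos_iff_ne_zero]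
    intro h0
    exact hN0 (by rw [h0, Nat.cast_zero])
  -- generic functional
  let S : Finset (Fin d → ℤ) := ((Finset.range n ×ˢ (B ×ˢ B)).image
    (fun p => R ^ p.1 *ᵥ p.2.1 - R ^ p.1 *ᵥ p.2.2)).filter (fun s => s ≠ 0)
  obtain ⟨v, hv⟩ := exists_generic S (fun s hs => (Finset.mem_filter.1 hs).2)
  have hv' : ∀ k < n, ∀ b ∈ B, ∀ b' ∈ B, b ≠ b' →
      v ⬝ᵥ toR (R ^ k *ᵥ b) ≠ v ⬝ᵥ toR (R ^ k *ᵥ b') := by
    intro k hk b hb b' hb' hbb h0
    have h1 : R ^ k *ᵥ b - R ^ k *ᵥ b' ≠ 0 := by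
      intro h2
      have h3 : R ^ k *ᵥ b = R ^ k *ᵥ b' := sub_eq_zero.1 h2
      have h4 : toR (R ^ k *ᵥ b) = toR (R ^ k *ᵥ b') := by rw [h3]
      rw [toR_pow_mulVec, toR_pow_mulVec] at h4
      have h5 := congrArg (fun z => inv R ^ k *ᵥ z) h4
      simp only [Matrix.mulVec_mulVec, inv_pow_mul_pow R hdet k, Matrix.one_mulVec] at h5
      exact hbb (toR_injective h5)
    have h2 : R ^ k *ᵥ b - R ^ k *ᵥ b' ∈ S := by
      refine Finset.mem_filter.2 ⟨Finset.mem_image.2 ⟨(k, (b, b')), ?_, rfl⟩, h1⟩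
      exact Finset.mem_product.2 ⟨Finset.mem_range.2 hk, Finset.mem_product.2 ⟨hb, hb'⟩⟩
    apply hv _ h2
    rw [toR_sub, dotProduct_sub, h0, sub_self]
  obtain ⟨ws, hws, hmax⟩ := exists_max_word hB v n hv' n le_rfl
  have hcont : Continuous fun x : Fin d → ℝ => v ⬝ᵥ x := by
    unfold dotProduct
    fun_prop
  obtain ⟨x0, hx0, hx0max⟩ := hTc.exists_isMaxOn hTn hcont.continuousOn
  set M := v ⬝ᵥ x0 with hM
  set V : Set (Fin d → ℝ) := {x | ∀ u ∈ (W B n).erase ws,
    M < v ⬝ᵥ x + v ⬝ᵥ toR (code R ws) - v ⬝ᵥ toR (code R u)} with hV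
  have hVo : IsOpen V := by
    have : V = ⋂ u ∈ (W B n).erase ws,
        {x | M < v ⬝ᵥ x + v ⬝ᵥ toR (code R ws) - v ⬝ᵥ toR (code R u)} := by
      ext x
      simp [hV]
    rw [this]
    refine isOpen_biInter_finset fun u _ => ?_
    exact isOpen_lt continuous_const ((hcont.add continuous_const).sub continuous_const)
  have hx0V : x0 ∈ V := by
    intro u hu
    have h1 := Finset.mem_erase.1 hu
    have := hmax u h1.2 h1.1
    linarith
  have hVpos := measure_open_pos h hR hTc hTn hT V hVo x0 hx0V hx0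
  have hTcompl := measure_compl h hR hTc hTn hT
  -- the piece at the extreme point
  set Rn := (R.map (Int.castRingHom ℝ)) ^ n with hRn
  set F : Set (Fin d → ℝ) := (fun y => Rn *ᵥ y - toR (code R ws)) ⁻¹' V with hF
  have hFc : Continuous fun y : Fin d → ℝ => Rn *ᵥ y - toR (code R ws) := by
    have h1 := (Matrix.toLin' Rn).continuous_of_finiteDimensional
    have h2 : (fun y : Fin d → ℝ => Rn *ᵥ y - toR (code R ws)) =
        fun y => Matrix.toLin' Rn y - toR (code R ws) := by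
      funext y
      rw [Matrix.toLin'_apply]
    rw [h2]
    exact h1.sub continuous_const
  have hFm : MeasurableSet F := hFc.measurable hVo.measurableSet
  have hpre : ∀ u ∈ W B n, ∀ x, Rn *ᵥ (phiw R u x) - toR (code R ws) =
      x + toR (code R u) - toR (code R ws) := by
    intro u hu x
    rw [phiw_eq R hdet, ((mem_W B n u).1 hu).1, Matrix.mulVec_mulVec, hRn,
      pow_mul_inv_pow R hdet, Matrix.one_mulVec]
  have hFs : phiw R ws ⁻¹' F = V := by
    ext x
    show Rn *ᵥ (phiw R ws x) - toR (code R ws) ∈ V ↔ x ∈ V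
    rw [hpre ws hws x, add_sub_cancel_right]
  have hFu : ∀ u ∈ W B n, u ≠ ws → μ (phiw R u ⁻¹' F) = 0 := by
    intro u hu hne'
    refine measure_mono_null ?_ hTcompl
    intro x hx hxT
    have h1 : Rn *ᵥ (phiw R u x) - toR (code R ws) ∈ V := hx
    rw [hpre u hu x] at h1
    have h2 := h1 u (Finset.mem_erase.2 ⟨hne', hu⟩)
    rw [dotProduct_sub, dotProduct_add] at h2
    have h3 : v ⬝ᵥ x ≤ M := hx0max hxT
    linarith
  set a : Fin d → ℝ := inv R ^ n *ᵥ (toR (code R w) - toR (code R ws)) with ha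
  have hshift : ∀ z ∈ W B n, code R z = code R w → ∀ x, phiw R ws x + a = phiw R z x := by
    intro z hz hzc x
    rw [phiw_eq R hdet, phiw_eq R hdet, ((mem_W B n z).1 hz).1, ((mem_W B n ws).1 hws).1, ha,
      ← Matrix.mulVec_add, hzc]
    congr 1
    abel
  have hω : ∀ G, MeasurableSet G → 2 * μ (F ∩ (fun x => x + a) ⁻¹' G) ≤ μ G := by
    intro G hG
    have hma : Measurable (fun x : Fin d → ℝ => x + a) := measurable_id.add_const a
    have h1 : (B.card : ℝ≥0∞) ^ n * μ (F ∩ (fun x => x + a) ⁻¹' G) ≤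
        μ (phiw R ws ⁻¹' ((fun x => x + a) ⁻¹' G)) := by
      rw [h.words' n _ (hFm.inter (hma hG)), ← Finset.add_sum_erase _ _ hws]
      have h2 : ∑ u ∈ (W B n).erase ws, μ (phiw R u ⁻¹' (F ∩ (fun x => x + a) ⁻¹' G)) = 0 := by
        refine Finset.sum_eq_zero fun u hu => ?_
        have h3 := Finset.mem_erase.1 hu
        exact measure_mono_null (fun x hx => hx.1) (hFu u h3.2 h3.1)
      rw [h2, add_zero]
      exact measure_mono fun x hx => hx.2
    have h2 : phiw R ws ⁻¹' ((fun x => x + a) ⁻¹' G) = phiw R w ⁻¹' G := by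
      ext x
      show phiw R ws x + a ∈ G ↔ phiw R w x ∈ G
      rw [hshift w hw rfl x]
    have h3 : phiw R w ⁻¹' G = phiw R w' ⁻¹' G := by
      ext x
      show phiw R w x ∈ G ↔ phiw R w' x ∈ G
      rw [← hshift w hw rfl x, hshift w' hw' hcode.symm x]
    rw [h2] at h1
    have h4 := h.two n G hG w w' hw hw' hne
    rw [← h3] at h4
    have h5 : (B.card : ℝ≥0∞) ^ n * (2 * μ (F ∩ (fun x => x + a) ⁻¹' G)) ≤
        (B.card : ℝ≥0∞) ^ n * μ G := by
      refine le_trans ?_ h4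
      rw [← two_mul, mul_left_comm]
      exact mul_le_mul' le_rfl h1
    rwa [ENNReal.mul_le_mul_iff_right (pow_ne_zero _ hN0) (ENNReal.pow_ne_top hNt)] at h5
  have hF0 := rigidity μ Λ e he ho hs F hFm a hω
  have h1 := h.one n F hFm ws hws
  rw [hF0, mul_zero, hFs] at h1
  exact hVpos (le_antisymm h1 bot_le)

end Pool.Agent.TH284.SA
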