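import Mathlib

set_option autoImplicit false
open MeasureTheory Filter Topology
open scoped ENNReal ComplexConjugate InnerProductSpace

namespace Pool.Agent.TH284.SA

variable {d : ℕ}

/-- the exponential with frequency `l` -/
noncomputable def ex (l x : Fin d → ℝ) : ℂ :=
  Complex.exp (2 * Real.pi * Complex.I * ((∑ i, l i * x i : ℝ) : ℂ))

theorem ex_add (l x y : Fin d → ℝ) : ex l (x + y) = ex l x * ex l y := by
  unfold ex
  rw [← Complex.exp_add]
  congr 1
  have : ∑ i, l i * (x + y) i = ∑ i, l i * x i + ∑ i, l i * y i := by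
    rw [← Finset.sum_add_distrib]
    exact Finset.sum_congr rfl fun i _ => by rw [Pi.add_apply]; ring
  rw [this]
  push_cast
  ring

theorem norm_ex (l x : Fin d → ℝ) : ‖ex l x‖ = 1 := by
  unfold ex
  have : 2 * Real.pi * Complex.I * ((∑ i, l i * x i : ℝ) : ℂ) =
      ((2 * Real.pi * (∑ i, l i * x i) : ℝ) : ℂ) * Complex.I := by
    push_cast
    ring
  rw [this, Complex.norm_exp_ofReal_mul_I]

theorem continuous_ex (l : Fin d → ℝ) : Continuous (ex l) := by
  unfold ex
  fun_prop

/-- A finite measure with an orthonormal basis of exponentials has no nontrivial piece whose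
translate is bounded by one half of the measure. -/
theorem rigidity (μ : Measure (Fin d → ℝ)) [IsFiniteMeasure μ]
    (Λ : Set (Fin d → ℝ)) (e : Λ → Lp ℂ 2 μ)
    (he : ∀ l : Λ, (e l : (Fin d → ℝ) → ℂ) =ᵐ[μ] ex (l : Fin d → ℝ))
    (ho : Orthonormal ℂ e)
    (hs : (Submodule.span ℂ (Set.range e)).topologicalClosure = ⊤)
    (F : Set (Fin d → ℝ)) (hF : MeasurableSet F) (a : Fin d → ℝ)
    (hω : ∀ G, MeasurableSet G → 2 * μ (F ∩ (fun x => x + a) ⁻¹' G) ≤ μ G) : μ F = 0 := by
  classical
  have hma : Measurable (fun x : Fin d → ℝ => x + a) := measurable_id.add_const a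
  set ω : Measure (Fin d → ℝ) := (μ.restrict F).map (fun x => x + a) with hωdef
  have hωG : ∀ G, MeasurableSet G → ω G = μ (F ∩ (fun x => x + a) ⁻¹' G) := by
    intro G hG
    rw [hωdef, Measure.map_apply hma hG, Measure.restrict_apply (hma hG), Set.inter_comm]
  have hle : ∀ G, MeasurableSet G → ω G ≤ 2⁻¹ * μ G := by
    intro G hG
    rw [hωG G hG, ← ENNReal.div_eq_inv_mul, ENNReal.le_div_iff_mul_le (Or.inl two_ne_zero)
      (Or.inl ENNReal.ofNat_ne_top), mul_comm]
    exact hω G hG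
  have hac : ω ≪ μ := by
    refine Measure.AbsolutelyContinuous.mk fun G hG h0 => ?_
    have := hle G hG
    rw [h0, mul_zero] at this
    exact nonpos_iff_eq_zero.1 this
  have : IsFiniteMeasure ω := by
    rw [hωdef]
    infer_instance
  have : ω.HaveLebesgueDecomposition μ := Measure.haveLebesgueDecomposition_of_sigmaFinite _ _
  set ψ := ω.rnDeriv μ with hψdef
  have hψm : Measurable ψ := Measure.measurable_rnDeriv _ _
  have hψle : ψ ≤ᵐ[μ] fun _ => 2⁻¹ := by
    refine ae_le_of_forall_setLIntegral_le_of_sigmaFinite hψm fun G hG _ => ?_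
    rw [Measure.setLIntegral_rnDeriv hac, setLIntegral_const]
    exact hle G hG
  have hψle' : ∀ᵐ x ∂μ, (ψ x).toReal ≤ 1 / 2 := by
    filter_upwards [hψle] with x hx
    have h1 : (ψ x).toReal ≤ ((2 : ℝ≥0∞)⁻¹).toReal :=
      ENNReal.toReal_mono (by simp) hx
    simpa using h1
  have hPm : AEStronglyMeasurable (fun x => (((ψ x).toReal : ℝ) : ℂ)) μ :=
    (Complex.measurable_ofReal.comp hψm.ennreal_toReal).aestronglyMeasurable
  have hP : MemLp (fun x => (((ψ x).toReal : ℝ) : ℂ)) 2 μ := by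
    refine MemLp.of_bound hPm (1 / 2) ?_
    filter_upwards [hψle'] with x hx
    rw [Complex.norm_real, Real.norm_of_nonneg ENNReal.toReal_nonneg]
    exact hx
  set P : Lp ℂ 2 μ := hP.toLp _ with hPdef
  set f : Lp ℂ 2 μ := indicatorConstLp 2 hF (measure_ne_top μ F) (1 : ℂ) with hfdef
  -- the inner products
  have hin1 : ∀ l : Λ, ⟪e l, f⟫_ℂ = ∫ x in F, conj (ex (l : Fin d → ℝ) x) ∂μ := by
    intro l
    rw [MeasureTheory.L2.inner_def, ← integral_indicator hF]
    refine integral_congr_ae ?_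
    filter_upwards [he l, indicatorConstLp_coeFn (p := 2) (hs := hF)
      (hμs := measure_ne_top μ F) (c := (1 : ℂ))] with x h1 h2
    rw [h1, h2]
    by_cases hx : x ∈ F
    · simp [hx]
    · simp [hx]
  have hin2 : ∀ l : Λ, ⟪e l, P⟫_ℂ =
      conj (ex (l : Fin d → ℝ) a) * ∫ x in F, conj (ex (l : Fin d → ℝ) x) ∂μ := by
    intro l
    have h1 : ⟪e l, P⟫_ℂ = ∫ x, (ψ x).toReal • conj (ex (l : Fin d → ℝ) x) ∂μ := by
      rw [MeasureTheory.L2.inner_def]
      refine integral_congr_ae ?_
      filter_upwards [he l, hP.coeFn_toLp] with x h1 h2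
      rw [h1, h2]
      simp
    have h2 : Continuous fun x => conj (ex (l : Fin d → ℝ) x) :=
      Complex.continuous_conj.comp (continuous_ex _)
    rw [h1, hψdef, integral_rnDeriv_smul hac, hωdef,
      integral_map hma.aemeasurable h2.aestronglyMeasurable, ← integral_const_mul]
    refine integral_congr_ae (Eventually.of_forall fun x => ?_)
    show conj (ex (l : Fin d → ℝ) (x + a)) =
      conj (ex (l : Fin d → ℝ) a) * conj (ex (l : Fin d → ℝ) x)
    rw [ex_add, map_mul, mul_comm]
  have hnin : ∀ l : Λ, ‖⟪e l, P⟫_ℂ‖ = ‖⟪e l, f⟫_ℂ‖ := by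
    intro l
    rw [hin1, hin2, norm_mul, RCLike.norm_conj, norm_ex, one_mul]
  let b : HilbertBasis Λ ℂ (Lp ℂ 2 μ) := HilbertBasis.mk ho hs.ge
  have hb : ∀ l, b l = e l := fun l => by rw [HilbertBasis.coe_mk]
  have hnorm : ‖f‖ = ‖P‖ := by
    rw [← b.repr.norm_map f, ← b.repr.norm_map P, lp.norm_eq_tsum_rpow (by norm_num),
      lp.norm_eq_tsum_rpow (by norm_num)]
    congr 2
    funext l
    rw [b.repr_apply_apply, b.repr_apply_apply, hb, hnin]
  have hf2 : ‖f‖ ^ 2 = μ.real F := by
    rw [hfdef, norm_indicatorConstLp (by norm_num) (by norm_num)]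
    simp only [norm_one, one_mul, ENNReal.toReal_ofNat]
    rw [← Real.rpow_natCast, ← Real.rpow_mul measureReal_nonneg]
    norm_num
  have hP2 : ‖P‖ ^ 2 ≤ 1 / 2 * μ.real F := by
    have h1 : ‖P‖ ^ 2 = ∫ x, (ψ x).toReal ^ 2 ∂μ := by
      have h2 : ((‖P‖ ^ 2 : ℝ) : ℂ) = ⟪P, P⟫_ℂ := by
        rw [inner_self_eq_norm_sq_to_K]
        simp
      have h3 : ⟪P, P⟫_ℂ = ∫ x, (((ψ x).toReal ^ 2 : ℝ) : ℂ) ∂μ := by
        rw [MeasureTheory.L2.inner_def]
        refine integral_congr_ae ?_
        filter_upwards [hP.coeFn_toLp] with x h2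
        rw [h2]
        simp [sq]
      rw [h3, integral_complex_ofReal] at h2
      exact_mod_cast h2
    have h2 : ∫ x, (ψ x).toReal ^ 2 ∂μ ≤ ∫ x, 1 / 2 * (ψ x).toReal ∂μ := by
      refine integral_mono_of_nonneg (Eventually.of_forall fun x => sq_nonneg _) ?_ ?_
      · exact (Measure.integrable_toReal_rnDeriv).const_mul _
      · filter_upwards [hψle'] with x hx
        have h0 : 0 ≤ (ψ x).toReal := ENNReal.toReal_nonneg
        nlinarith
    rw [h1]
    refine h2.trans ?_
    rw [integral_const_mul, hψdef, Measure.integral_toReal_rnDeriv hac]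
    have h3 : ω.real Set.univ = μ.real F := by
      rw [measureReal_def, hωG _ MeasurableSet.univ, Set.preimage_univ, Set.inter_univ]
      rfl
    rw [h3]
  rw [← hnorm, hf2] at hP2
  have h0 : μ.real F = 0 := by
    have := measureReal_nonneg (μ := μ) (s := F)
    linarith
  rw [measureReal_def, ENNReal.toReal_eq_zero_iff] at h0
  rcases h0 with h0 | h0
  · exact h0
  · exact absurd h0 (measure_ne_top μ F)

end Pool.Agent.TH284.SA
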