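import Mathlib

/-!
Finite level computations for the digit set `{0, 1, 8, 9}` with scaling `12`.
-/

set_option autoImplicit false
open MeasureTheory Matrix Filter Topology
open scoped ENNReal ComplexConjugate

namespace Pool.Agent.TH284.Sp

/-- pairs of binary digits -/
abbrev Q : Type := Fin 2 × Fin 2

/-- the digits `0, 1, 8, 9` -/
noncomputable def bv (q : Q) : ℝ := ((q.1 : ℕ) : ℝ) + 8 * ((q.2 : ℕ) : ℝ)

/-- the digits `0, 3/4, 18, 75/4` of the spectrum -/
noncomputable def dv (q : Q) : ℝ := 3 / 4 * (((q.1 : ℕ) : ℝ) + 24 * ((q.2 : ℕ) : ℝ))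

noncomputable def xw (n : ℕ) (w : Fin n → Q) : ℝ := ∑ k : Fin n, bv (w k) / 12 ^ (k.val + 1)

noncomputable def lam (n : ℕ) (v : Fin n → Q) : ℝ := ∑ j : Fin n, 12 ^ j.val * dv (v j)

/-- `t ↦ exp (2 π i t)` -/
noncomputable def e (t : ℝ) : ℂ := Complex.exp (2 * Real.pi * Complex.I * (t : ℂ))

theorem e_add (s t : ℝ) : e (s + t) = e s * e t := by
  unfold e
  rw [← Complex.exp_add]
  congr 1
  push_cast
  ring

theorem e_zero : e 0 = 1 := by simp [e]

theorem e_neg (t : ℝ) : e (-t) = conj (e t) := by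
  unfold e
  rw [← Complex.exp_conj]
  congr 1
  have h1 : 2 * Real.pi * Complex.I * (t : ℂ) = ((2 * Real.pi * t : ℝ) : ℂ) * Complex.I := by
    push_cast
    ring
  rw [h1, map_mul, Complex.conj_ofReal, Complex.conj_I]
  push_cast
  ring

theorem norm_e (t : ℝ) : ‖e t‖ = 1 := by
  unfold e
  have : 2 * Real.pi * Complex.I * (t : ℂ) = ((2 * Real.pi * t : ℝ) : ℂ) * Complex.I := by
    push_cast
    ring
  rw [this, Complex.norm_exp_ofReal_mul_I]

theorem continuous_e : Continuous e := by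
  unfold e
  fun_prop

theorem e_int (m : ℤ) : e m = 1 := by
  unfold e
  rw [Complex.exp_eq_one_iff]
  exact ⟨m, by push_cast; ring⟩

theorem e_half_odd (m : ℤ) (hm : Odd m) : e ((m : ℝ) / 2) = -1 := by
  obtain ⟨k, rfl⟩ := hm
  have h1 : (((2 * k + 1 : ℤ) : ℝ)) / 2 = (k : ℝ) + 1 / 2 := by
    push_cast
    ring
  rw [h1, e_add, e_int, one_mul]
  unfold e
  have : 2 * (Real.pi : ℂ) * Complex.I * ((1 / 2 : ℝ) : ℂ) = Real.pi * Complex.I := by
    push_cast
    ring
  rw [this, Complex.exp_pi_mul_I]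

theorem norm_e_sub_one_le (t : ℝ) : ‖e t - 1‖ ≤ 2 * Real.pi * |t| := by
  unfold e
  have : 2 * Real.pi * Complex.I * (t : ℂ) = Complex.I * ((2 * Real.pi * t : ℝ) : ℂ) := by
    push_cast
    ring
  rw [this]
  refine Real.norm_exp_I_mul_ofReal_sub_one_le.trans ?_
  rw [Real.norm_eq_abs, abs_mul, abs_of_pos (by positivity : (0 : ℝ) < 2 * Real.pi)]

/-- the sum over the four digits -/
theorem sum_digit (t : ℝ) : ∑ q : Q, e (t * bv q) = (1 + e t) * (1 + e (8 * t)) := by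
  simp only [Fintype.sum_prod_type, Fin.sum_univ_two, bv]
  simp only [Fin.val_zero, Fin.val_one, Nat.cast_zero, Nat.cast_one, mul_zero, add_zero,
    mul_one, zero_add, e_zero]
  have h1 : t * 8 = 8 * t := mul_comm _ _
  have h2 : t * (1 + 8) = t + 8 * t := by ring
  rw [h1, h2, e_add]
  ring

theorem sum_words (n : ℕ) (ξ : ℝ) :
    ∑ w : Fin n → Q, e (ξ * xw n w) =
      ∏ k : Fin n, ((1 + e (ξ / 12 ^ (k.val + 1))) * (1 + e (8 * (ξ / 12 ^ (k.val + 1))))) := by
  have h1 : ∀ w : Fin n → Q, e (ξ * xw n w) = ∏ k : Fin n, e (ξ / 12 ^ (k.val + 1) * bv (w k)) := by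
    intro w
    have h2 : ∀ (s : Finset (Fin n)) (f : Fin n → ℝ), e (∑ k ∈ s, f k) = ∏ k ∈ s, e (f k) := by
      classical
      intro s f
      induction s using Finset.induction_on with
      | empty => simp [e_zero]
      | insert a s ha ih => rw [Finset.sum_insert ha, Finset.prod_insert ha, e_add, ih]
    rw [← h2]
    congr 1
    rw [xw, Finset.mul_sum]
    exact Finset.sum_congr rfl fun k _ => by ring
  simp only [h1]
  rw [← Fintype.prod_sum fun (k : Fin n) (q : Q) => e (ξ / 12 ^ (k.val + 1) * bv q)]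
  exact Finset.prod_congr rfl fun k _ => sum_digit _

/-- the arithmetic of differences, with a carry `2 a` -/
theorem arith (n : ℕ) (a : ℤ) (ha : a = 0 ∨ a = 1 ∨ a = -1) (f g : ℕ → ℤ)
    (hf : ∀ j, f j = 0 ∨ f j = 1 ∨ f j = -1) (hg : ∀ j, g j = 0 ∨ g j = 1 ∨ g j = -1)
    (hne : a ≠ 0 ∨ ∃ j < n, f j ≠ 0 ∨ g j ≠ 0) :
    (∃ j < n, ∃ m : ℤ, Odd m ∧
      2 * a + ∑ j ∈ Finset.range n, 12 ^ j * (f j + 24 * g j) = 12 ^ j * m) ∨
    (∃ j ≤ n, (a = 0 → 1 ≤ j) ∧ ∃ m : ℤ, Odd m ∧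
      2 * a + ∑ j ∈ Finset.range n, 12 ^ j * (f j + 24 * g j) = 12 ^ j * (2 * m)) := by
  induction n generalizing a f g with
  | zero =>
    right
    have ha0 : a ≠ 0 := by
      rcases hne with h | ⟨j, hj, -⟩
      · exact h
      · omega
    refine ⟨0, le_rfl, fun h => absurd h ha0, a, ?_, by simp⟩
    rcases ha with h | h | h
    · exact absurd h ha0
    · rw [h]; exact odd_one
    · rw [h]; exact ⟨-1, by norm_num⟩
  | succ n ih =>
    have hsum : ∑ j ∈ Finset.range (n + 1), (12 : ℤ) ^ j * (f j + 24 * g j) =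
        f 0 + 12 * (2 * g 0 + ∑ j ∈ Finset.range n, 12 ^ j * (f (j + 1) + 24 * g (j + 1))) := by
      rw [Finset.sum_range_succ']
      have h12 : ∑ j ∈ Finset.range n, (12 : ℤ) ^ (j + 1) * (f (j + 1) + 24 * g (j + 1)) =
          12 * ∑ j ∈ Finset.range n, 12 ^ j * (f (j + 1) + 24 * g (j + 1)) := by
        rw [Finset.mul_sum]
        exact Finset.sum_congr rfl fun j _ => by ring
      rw [h12]
      ring
    rw [hsum]
    set Z : ℤ := 2 * g 0 + ∑ j ∈ Finset.range n, 12 ^ j * (f (j + 1) + 24 * g (j + 1)) with hZ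
    rcases hf 0 with h0 | h0 | h0
    · -- f 0 = 0
      by_cases ha0 : a = 0
      · have hne' : g 0 ≠ 0 ∨ ∃ j < n, f (j + 1) ≠ 0 ∨ g (j + 1) ≠ 0 := by
          rcases hne with h | ⟨j, hj, h⟩
          · exact absurd ha0 h
          · cases j with
            | zero =>
              rcases h with h | h
              · exact absurd h0 h
              · exact Or.inl h
            | succ j => exact Or.inr ⟨j, by omega, h⟩
        rcases ih (g 0) (hg 0) (fun j => f (j + 1)) (fun j => g (j + 1)) (fun j => hf _)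
          (fun j => hg _) hne' with ⟨j, hj, m, hm, h⟩ | ⟨j, hj, -, m, hm, h⟩
        · left
          refine ⟨j + 1, by omega, m, hm, ?_⟩
          rw [h0, ha0, hZ, h, pow_succ]
          ring
        · right
          refine ⟨j + 1, by omega, fun _ => by omega, m, hm, ?_⟩
          rw [h0, ha0, hZ, h, pow_succ]
          ring
      · right
        refine ⟨0, by omega, fun h => absurd h ha0, a + 6 * Z, ?_, ?_⟩
        · have hao : Odd a := by
            rcases ha with h | h | h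
            · exact absurd h ha0
            · rw [h]; exact odd_one
            · rw [h]; exact ⟨-1, by norm_num⟩
          exact hao.add_even ⟨3 * Z, by ring⟩
        · rw [h0]
          ring
    · left
      refine ⟨0, by omega, 2 * a + (f 0 + 12 * Z), ?_, by ring⟩
      rw [h0]
      exact ⟨a + 6 * Z, by ring⟩
    · left
      refine ⟨0, by omega, 2 * a + (f 0 + 12 * Z), ?_, by ring⟩
      rw [h0]
      exact ⟨a + 6 * Z - 1, by ring⟩

theorem sum_words_eq_zero (n : ℕ) (v v' : Fin n → Q) (hne : v ≠ v') :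
    ∑ w : Fin n → Q, e ((lam n v - lam n v') * xw n w) = 0 := by
  classical
  let f : ℕ → ℤ := fun j => if h : j < n then (((v ⟨j, h⟩).1 : ℕ) : ℤ) - (((v' ⟨j, h⟩).1 : ℕ) : ℤ)
    else 0
  let g : ℕ → ℤ := fun j => if h : j < n then (((v ⟨j, h⟩).2 : ℕ) : ℤ) - (((v' ⟨j, h⟩).2 : ℕ) : ℤ)
    else 0
  have hdig : ∀ a b : Fin 2, ((a : ℕ) : ℤ) - ((b : ℕ) : ℤ) = 0 ∨
      ((a : ℕ) : ℤ) - ((b : ℕ) : ℤ) = 1 ∨ ((a : ℕ) : ℤ) - ((b : ℕ) : ℤ) = -1 := by decide
  have hf : ∀ j, f j = 0 ∨ f j = 1 ∨ f j = -1 := by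
    intro j
    by_cases h : j < n
    · simp only [f, dif_pos h]
      exact hdig _ _
    · simp [f, h]
  have hg : ∀ j, g j = 0 ∨ g j = 1 ∨ g j = -1 := by
    intro j
    by_cases h : j < n
    · simp only [g, dif_pos h]
      exact hdig _ _
    · simp [g, h]
  have hne' : (0 : ℤ) ≠ 0 ∨ ∃ j < n, f j ≠ 0 ∨ g j ≠ 0 := by
    right
    obtain ⟨j, hj⟩ := Function.ne_iff.1 hne
    refine ⟨j.val, j.2, ?_⟩
    by_contra hcon
    push Not at hcon
    apply hj
    have h1 := hcon.1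
    have h2 := hcon.2
    simp only [f, g, dif_pos j.2] at h1 h2
    ext
    · have : (((v j).1 : ℕ) : ℤ) = (((v' j).1 : ℕ) : ℤ) := by
        exact sub_eq_zero.1 h1
      exact_mod_cast this
    · have : (((v j).2 : ℕ) : ℤ) = (((v' j).2 : ℕ) : ℤ) := by
        exact sub_eq_zero.1 h2
      exact_mod_cast this
  have hξ : lam n v - lam n v' =
      3 / 4 * ((2 * 0 + ∑ j ∈ Finset.range n, 12 ^ j * (f j + 24 * g j) : ℤ) : ℝ) := by
    rw [lam, lam, ← Finset.sum_sub_distrib, mul_zero, zero_add, Finset.sum_range]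
    push_cast
    rw [Finset.mul_sum]
    refine Finset.sum_congr rfl fun j _ => ?_
    simp only [f, g, dif_pos j.2, dv]
    push_cast
    ring
  rw [sum_words]
  rcases arith n 0 (Or.inl rfl) f g hf hg hne' with ⟨j, hj, m, hm, h⟩ | ⟨j, hj, hj1, m, hm, h⟩
  · refine Finset.prod_eq_zero (Finset.mem_univ (⟨j, hj⟩ : Fin n)) ?_
    have h2 : 8 * ((lam n v - lam n v') / 12 ^ (j + 1)) = (m : ℝ) / 2 := by
      rw [hξ, h]
      push_cast
      rw [pow_succ]
      have : (12 : ℝ) ^ j ≠ 0 := by positivity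
      field_simp
      ring
    rw [h2, e_half_odd m hm]
    ring
  · have hj1' := hj1 rfl
    obtain ⟨i, rfl⟩ : ∃ i, j = i + 1 := ⟨j - 1, by omega⟩
    refine Finset.prod_eq_zero (Finset.mem_univ (⟨i, by omega⟩ : Fin n)) ?_
    have h2 : (lam n v - lam n v') / 12 ^ (i + 1) = ((3 * m : ℤ) : ℝ) / 2 := by
      rw [hξ, h]
      push_cast
      have : (12 : ℝ) ^ (i + 1) ≠ 0 := by positivity
      field_simp
      ring
    have h3 : Odd (3 * m) := (by decide : Odd (3 : ℤ)).mul hm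
    simp only
    rw [h2, e_half_odd _ h3]
    ring

/-- the finite Parseval identity -/
theorem parseval (n : ℕ) (r : (Fin n → Q) → ℂ) :
    ∑ v : Fin n → Q, ‖∑ w : Fin n → Q, r w * e (-(lam n v * xw n w))‖ ^ 2 =
      4 ^ n * ∑ w : Fin n → Q, ‖r w‖ ^ 2 := by
  classical
  let U : Matrix (Fin n → Q) (Fin n → Q) ℂ := fun v w => e (-(lam n v * xw n w))
  have h4 : (4 : ℂ) ^ n ≠ 0 := pow_ne_zero _ (by norm_num)
  have hUU : U * ((4 : ℂ) ^ n)⁻¹ • Uᴴ = 1 := by
    rw [Matrix.mul_smul]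
    ext v v'
    rw [Matrix.smul_apply, Matrix.mul_apply, Matrix.one_apply]
    have h1 : ∀ w, U v w * Uᴴ w v' = e ((lam n v' - lam n v) * xw n w) := by
      intro w
      rw [Matrix.conjTranspose_apply]
      show e (-(lam n v * xw n w)) * conj (e (-(lam n v' * xw n w))) = _
      rw [← e_neg, ← e_add]
      congr 1
      ring
    simp only [h1]
    split_ifs with h
    · rw [h]
      simp only [sub_self, zero_mul, e_zero, Finset.sum_const, Finset.card_univ, smul_eq_mul]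
      rw [Fintype.card_fun, nsmul_eq_mul]
      simp only [Fintype.card_prod, Fintype.card_fin]
      push_cast
      norm_num
    · rw [sum_words_eq_zero n v' v (Ne.symm h), smul_zero]
  have hUU2 : ((4 : ℂ) ^ n)⁻¹ • Uᴴ * U = 1 := mul_eq_one_comm.1 hUU
  have hUU3 : Uᴴ * U = (4 : ℂ) ^ n • (1 : Matrix (Fin n → Q) (Fin n → Q) ℂ) := by
    rw [← hUU2, Matrix.smul_mul, smul_smul, mul_inv_cancel₀ h4, one_smul]
  have h5 : ∀ v, ∑ w : Fin n → Q, r w * e (-(lam n v * xw n w)) = (U *ᵥ r) v := by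
    intro v
    rw [Matrix.mulVec, dotProduct]
    exact Finset.sum_congr rfl fun w _ => mul_comm _ _
  have h6 : (((∑ v : Fin n → Q, ‖(U *ᵥ r) v‖ ^ 2 : ℝ)) : ℂ) = star (U *ᵥ r) ⬝ᵥ (U *ᵥ r) := by
    rw [dotProduct]
    push_cast
    refine Finset.sum_congr rfl fun v _ => ?_
    rw [Pi.star_apply]
    exact (Complex.conj_mul' _).symm
  have h7 : (((∑ v : Fin n → Q, ‖r v‖ ^ 2 : ℝ)) : ℂ) = star r ⬝ᵥ r := by
    rw [dotProduct]
    push_cast
    refine Finset.sum_congr rfl fun v _ => ?_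
    rw [Pi.star_apply]
    exact (Complex.conj_mul' _).symm
  simp only [h5]
  have h8 : star (U *ᵥ r) ⬝ᵥ (U *ᵥ r) = (4 : ℂ) ^ n * (star r ⬝ᵥ r) := by
    rw [Matrix.star_mulVec, Matrix.dotProduct_mulVec, Matrix.vecMul_vecMul, hUU3,
      Matrix.vecMul_smul, Matrix.vecMul_one, smul_dotProduct, smul_eq_mul]
  rw [← h6, ← h7] at h8
  exact_mod_cast h8

end Pool.Agent.TH284.Sp
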