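import Pool.Agent.TH284.Sp1

set_option autoImplicit false
set_option linter.unusedSectionVars false
open MeasureTheory Filter Topology
open scoped ENNReal ComplexConjugate

namespace Pool.Agent.TH284.Sp

/-- the invariance of the measure -/
def Inv1 (ν : Measure ℝ) : Prop :=
  ∀ G, MeasurableSet G → ν G = (4 : ℝ≥0∞)⁻¹ * ∑ q : Q, ν ((fun x => (x + bv q) / 12) ⁻¹' G)

noncomputable def phi (n : ℕ) (w : Fin n → Q) (x : ℝ) : ℝ := x / 12 ^ n + xw n w

theorem continuous_phi (n : ℕ) (w : Fin n → Q) : Continuous (phi n w) := by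
  unfold phi
  fun_prop

theorem xw_cons (n : ℕ) (q : Q) (w : Fin n → Q) :
    xw (n + 1) (Fin.cons q w : Fin (n + 1) → Q) = bv q / 12 + xw n w / 12 := by
  rw [xw, xw, Fin.sum_univ_succ]
  simp only [Fin.cons_zero, Fin.cons_succ, Fin.val_zero, Fin.val_succ, zero_add, pow_one]
  congr 1
  rw [Finset.sum_div]
  refine Finset.sum_congr rfl fun k _ => ?_
  rw [pow_succ 12 (k.val + 1), div_mul_eq_div_div]

theorem phi_cons (n : ℕ) (q : Q) (w : Fin n → Q) (x : ℝ) :
    phi (n + 1) (Fin.cons q w : Fin (n + 1) → Q) x = (phi n w x + bv q) / 12 := by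
  rw [phi, phi, xw_cons, pow_succ]
  field_simp
  ring

theorem Inv1.level {ν : Measure ℝ} (h : Inv1 ν) (n : ℕ) (G : Set ℝ) (hG : MeasurableSet G) :
    ν G = ((4 : ℝ≥0∞)⁻¹) ^ n * ∑ w : Fin n → Q, ν (phi n w ⁻¹' G) := by
  induction n generalizing G with
  | zero =>
    have : ∀ w : Fin 0 → Q, phi 0 w ⁻¹' G = G := by
      intro w
      ext x
      simp [phi, xw]
    simp [this]
  | succ n ih =>
    have hm : ∀ q : Q, Measurable (fun x : ℝ => (x + bv q) / 12) := fun q => by fun_prop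
    rw [h G hG, pow_succ', mul_assoc]
    congr 1
    rw [Finset.mul_sum]
    have h1 : ∑ w : Fin (n + 1) → Q, ((4 : ℝ≥0∞)⁻¹) ^ n * ν (phi (n + 1) w ⁻¹' G) =
        ∑ q : Q, ∑ w : Fin n → Q, ((4 : ℝ≥0∞)⁻¹) ^ n *
          ν (phi (n + 1) (Fin.cons q w : Fin (n + 1) → Q) ⁻¹' G) := by
      let E : Q × (Fin n → Q) ≃ (Fin (n + 1) → Q) := Fin.consEquiv fun _ => Q
      let F : (Fin (n + 1) → Q) → ℝ≥0∞ := fun w => ((4 : ℝ≥0∞)⁻¹) ^ n * ν (phi (n + 1) w ⁻¹' G)
      have h2 : ∑ p, F (E p) = ∑ w, F w := E.sum_comp F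
      have h3 : ∑ p : Q × (Fin n → Q), F (E p) = ∑ q : Q, ∑ w : Fin n → Q, F (E (q, w)) :=
        Fintype.sum_prod_type _
      exact h2.symm.trans h3
    rw [h1]
    refine Finset.sum_congr rfl fun q _ => ?_
    rw [ih _ (hm q hG), Finset.mul_sum]
    refine Finset.sum_congr rfl fun w _ => ?_
    congr 2
    ext x
    show (phi n w x + bv q) / 12 ∈ G ↔ phi (n + 1) (Fin.cons q w : Fin (n + 1) → Q) x ∈ G
    rw [phi_cons]

theorem Inv1.level_measure {ν : Measure ℝ} (h : Inv1 ν) (n : ℕ) :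
    ν = ((4 : ℝ≥0∞)⁻¹) ^ n • ∑ w : Fin n → Q, ν.map (phi n w) := by
  ext G hG
  rw [Measure.smul_apply, Measure.finsetSum_apply, smul_eq_mul, h.level n G hG]
  congr 1
  exact Finset.sum_congr rfl fun w _ => by
    rw [Measure.map_apply (continuous_phi n w).measurable hG]

theorem Inv1.map_le {ν : Measure ℝ} (h : Inv1 ν) (n : ℕ) (w : Fin n → Q) :
    ν.map (phi n w) ≤ ((4 : ℝ≥0∞) ^ n) • ν := by
  refine Measure.le_iff.2 fun G hG => ?_
  rw [Measure.smul_apply, smul_eq_mul, Measure.map_apply (continuous_phi n w).measurable hG,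
    h.level n G hG, ← mul_assoc, ← mul_pow, ENNReal.mul_inv_cancel (by norm_num) (by norm_num),
    one_pow, one_mul]
  exact Finset.single_le_sum (f := fun w => ν (phi n w ⁻¹' G)) (fun _ _ => bot_le)
    (Finset.mem_univ w)

variable {E : Type} [NormedAddCommGroup E] [NormedSpace ℝ E]

theorem Inv1.integrable_map {ν : Measure ℝ} (h : Inv1 ν) (n : ℕ) (w : Fin n → Q) {f : ℝ → E}
    (hf : Integrable f ν) : Integrable f (ν.map (phi n w)) :=
  (hf.smul_measure (ENNReal.pow_ne_top (by norm_num))).mono_measure (h.map_le n w)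

theorem Inv1.integrable_comp {ν : Measure ℝ} (h : Inv1 ν) (n : ℕ) (w : Fin n → Q) {f : ℝ → E}
    (hf : Integrable f ν) : Integrable (fun x => f (phi n w x)) ν :=
  (h.integrable_map n w hf).comp_aemeasurable (continuous_phi n w).aemeasurable

theorem Inv1.integral_level {ν : Measure ℝ} (h : Inv1 ν) (n : ℕ) {f : ℝ → E}
    (hf : Integrable f ν) :
    ∫ x, f x ∂ν = ((4 : ℝ) ^ n)⁻¹ • ∑ w : Fin n → Q, ∫ x, f (phi n w x) ∂ν := by
  conv_lhs => rw [h.level_measure n]
  rw [integral_smul_measure, integral_finsetSum_measure fun w _ => h.integrable_map n w hf]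
  congr 1
  · simp
  · refine Finset.sum_congr rfl fun w _ => ?_
    rw [integral_map (continuous_phi n w).aemeasurable (h.integrable_map n w hf).1]

end Pool.Agent.TH284.Sp
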