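import Pool.Agent.TH284.Sp2

set_option autoImplicit false
set_option linter.unusedSectionVars false
open MeasureTheory Filter Topology
open scoped ENNReal ComplexConjugate

namespace Pool.Agent.TH284.Sp

variable {ν : Measure ℝ}

/-- the Fourier transform -/
noncomputable def ft (ν : Measure ℝ) (y : ℝ) : ℂ := ∫ x, e (-(y * x)) ∂ν

theorem integrable_e [IsProbabilityMeasure ν] (f : ℝ → ℝ) (hf : Continuous f) :
    Integrable (fun x => e (f x)) ν := by
  refine Integrable.of_bound (continuous_e.comp hf).aestronglyMeasurable 1 ?_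
  exact Eventually.of_forall fun x => (norm_e _).le

/-- The factorisation of the Fourier transform at level `n`. -/
theorem ft_level [IsProbabilityMeasure ν] (h : Inv1 ν) (n : ℕ) (y : ℝ) :
    ft ν y = ((4 : ℝ) ^ n)⁻¹ • (∑ w : Fin n → Q, e (-(y * xw n w))) * ft ν (y / 12 ^ n) := by
  rw [ft, h.integral_level n (integrable_e _ (by fun_prop)), smul_mul_assoc, Finset.sum_mul]
  congr 1
  refine Finset.sum_congr rfl fun w _ => ?_
  rw [ft, ← integral_const_mul]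
  congr 1
  funext x
  rw [← e_add, phi]
  congr 1
  ring

theorem ft_one [IsProbabilityMeasure ν] (h : Inv1 ν) (y : ℝ) :
    ft ν y = (1 + e (-(y / 12))) * (1 + e (8 * -(y / 12))) / 4 * ft ν (y / 12) := by
  have h1 := ft_level h 1 y
  have h2 : ∑ w : Fin 1 → Q, e (-(y * xw 1 w)) = ∑ w : Fin 1 → Q, e (-y * xw 1 w) := by
    refine Finset.sum_congr rfl fun w _ => ?_
    rw [neg_mul]
  rw [h2, sum_words] at h1
  simp only [Fin.prod_univ_one, Fin.val_zero, zero_add, pow_one] at h1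
  rw [h1, neg_div, Complex.real_smul]
  push_cast
  ring

theorem ft_zero_of_words [IsProbabilityMeasure ν] (h : Inv1 ν) (n : ℕ) (y : ℝ)
    (hy : ∑ w : Fin n → Q, e (-(y * xw n w)) = 0) : ft ν y = 0 := by
  rw [ft_level h n y, hy, smul_zero, zero_mul]

theorem ft_lower_triv [IsProbabilityMeasure ν] (hsupp : ∀ᵐ x ∂ν, x ∈ Set.Icc (0 : ℝ) 1) (y : ℝ) :
    1 - 2 * Real.pi * |y| ≤ ‖ft ν y‖ := by
  have h1 : ft ν y - 1 = ∫ x, (e (-(y * x)) - 1) ∂ν := by
    rw [integral_sub (integrable_e _ (by fun_prop)) (integrable_const _)]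
    simp [ft]
  have h2 : ‖ft ν y - 1‖ ≤ 2 * Real.pi * |y| := by
    rw [h1]
    have h3 : ∀ᵐ x ∂ν, ‖e (-(y * x)) - 1‖ ≤ 2 * Real.pi * |y| := by
      filter_upwards [hsupp] with x hx
      refine (norm_e_sub_one_le _).trans ?_
      rw [abs_neg, abs_mul]
      have h4 : |x| ≤ 1 := abs_le.2 ⟨by linarith [hx.1], hx.2⟩
      have h5 : |y| * |x| ≤ |y| * 1 := mul_le_mul_of_nonneg_left h4 (abs_nonneg _)
      have h6 : (0 : ℝ) ≤ 2 * Real.pi := by positivity
      nlinarith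
    have h4 := norm_integral_le_of_norm_le_const h3
    simpa using h4
  have h3 : ‖(1 : ℂ)‖ ≤ ‖ft ν y‖ + ‖ft ν y - 1‖ := by
    have : (1 : ℂ) = ft ν y - (ft ν y - 1) := by ring
    calc ‖(1 : ℂ)‖ = ‖ft ν y - (ft ν y - 1)‖ := by rw [← this]
      _ ≤ _ := norm_sub_le _ _
  rw [norm_one] at h3
  linarith

theorem norm_one_add_e (t : ℝ) : 2 - 2 * Real.pi * |t| ≤ ‖1 + e t‖ := by
  have h1 : ‖(2 : ℂ)‖ ≤ ‖1 + e t‖ + ‖e t - 1‖ := by
    have : (2 : ℂ) = (1 + e t) - (e t - 1) := by ring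
    calc ‖(2 : ℂ)‖ = ‖(1 + e t) - (e t - 1)‖ := by rw [← this]
      _ ≤ _ := norm_sub_le _ _
  have h2 := norm_e_sub_one_le t
  have h3 : ‖(2 : ℂ)‖ = 2 := by simp
  linarith

theorem ft_lower_small [IsProbabilityMeasure ν] (h : Inv1 ν)
    (hsupp : ∀ᵐ x ∂ν, x ∈ Set.Icc (0 : ℝ) 1) (y : ℝ) (hy0 : 0 ≤ y) (hy : y ≤ 9 / 44) :
    2 / 5 ≤ ‖ft ν y‖ := by
  have hpi := Real.pi_lt_d2
  have hpi0 := Real.pi_pos
  rw [ft_one h y, norm_mul, norm_div, norm_mul]
  have h1 := norm_one_add_e (-(y / 12))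
  have h2 := norm_one_add_e (8 * -(y / 12))
  have h3 := ft_lower_triv hsupp (y / 12)
  rw [abs_neg, abs_of_nonneg (by positivity)] at h1
  rw [abs_mul, abs_neg, abs_of_nonneg (by positivity : (0 : ℝ) ≤ y / 12),
    abs_of_nonneg (by norm_num : (0 : ℝ) ≤ 8)] at h2
  rw [abs_of_nonneg (by positivity)] at h3
  have hy12 : Real.pi * (y / 12) ≤ 3.15 * (3 / 176) := by
    refine mul_le_mul hpi.le (by linarith) (by positivity) (by norm_num)
  have h1' : (1.89 : ℝ) ≤ ‖1 + e (-(y / 12))‖ := by nlinarith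
  have h2' : (1.14 : ℝ) ≤ ‖1 + e (8 * -(y / 12))‖ := by nlinarith
  have h3' : (0.89 : ℝ) ≤ ‖ft ν (y / 12)‖ := by nlinarith
  have h4 : ‖(4 : ℂ)‖ = 4 := by simp
  rw [h4]
  have h5 : (1.89 : ℝ) * 1.14 ≤ ‖1 + e (-(y / 12))‖ * ‖1 + e (8 * -(y / 12))‖ :=
    mul_le_mul h1' h2' (by norm_num) (norm_nonneg _)
  have h6 : (1.89 : ℝ) * 1.14 / 4 * 0.89 ≤
      ‖1 + e (-(y / 12))‖ * ‖1 + e (8 * -(y / 12))‖ / 4 * ‖ft ν (y / 12)‖ := by
    refine mul_le_mul (by linarith) h3' (by norm_num) (by positivity)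
  have h7 : (2 / 5 : ℝ) ≤ 1.89 * 1.14 / 4 * 0.89 := by norm_num
  linarith

theorem ft_lower_large [IsProbabilityMeasure ν] (h : Inv1 ν)
    (hsupp : ∀ᵐ x ∂ν, x ∈ Set.Icc (0 : ℝ) 1) (y : ℝ) (hy0 : 3 / 2 ≤ y) (hy : y ≤ 75 / 44) :
    1 / 10 ≤ ‖ft ν y‖ := by
  have hpi := Real.pi_lt_d2
  have hpi0 := Real.pi_pos
  have h3 := ft_lower_small h hsupp (y / 12) (by linarith) (by linarith)
  rw [ft_one h y, norm_mul, norm_div, norm_mul]
  have h1 := norm_one_add_e (-(y / 12))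
  have h2 := norm_one_add_e (1 + 8 * -(y / 12))
  rw [e_add] at h2
  have he1 : e 1 = 1 := by
    have := e_int 1
    simpa using this
  rw [he1, one_mul] at h2
  rw [abs_neg, abs_of_nonneg (by linarith)] at h1
  have h8 : |1 + 8 * -(y / 12)| ≤ 3 / 22 := by
    rw [abs_le]
    constructor <;> linarith
  have h1' : (1.1 : ℝ) ≤ ‖1 + e (-(y / 12))‖ := by
    have : Real.pi * (y / 12) ≤ 3.15 * (25 / 176) :=
      mul_le_mul hpi.le (by linarith) (by linarith) (by norm_num)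
    nlinarith
  have h2' : (1.14 : ℝ) ≤ ‖1 + e (8 * -(y / 12))‖ := by
    have : Real.pi * |1 + 8 * -(y / 12)| ≤ 3.15 * (3 / 22) :=
      mul_le_mul hpi.le h8 (abs_nonneg _) (by norm_num)
    nlinarith
  have h4 : ‖(4 : ℂ)‖ = 4 := by simp
  rw [h4]
  have h5 : (1.1 : ℝ) * 1.14 ≤ ‖1 + e (-(y / 12))‖ * ‖1 + e (8 * -(y / 12))‖ :=
    mul_le_mul h1' h2' (by norm_num) (norm_nonneg _)
  have h6 : (1.1 : ℝ) * 1.14 / 4 * (2 / 5) ≤
      ‖1 + e (-(y / 12))‖ * ‖1 + e (8 * -(y / 12))‖ / 4 * ‖ft ν (y / 12)‖ := by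
    refine mul_le_mul (by linarith) h3 (by norm_num) (by positivity)
  have h7 : (1 / 10 : ℝ) ≤ 1.1 * 1.14 / 4 * (2 / 5) := by norm_num
  linarith

theorem lam_range (n : ℕ) (v : Fin n → Q) :
    (0 ≤ lam n v / 12 ^ n ∧ lam n v / 12 ^ n ≤ 9 / 44) ∨
      (3 / 2 ≤ lam n v / 12 ^ n ∧ lam n v / 12 ^ n ≤ 75 / 44) := by
  induction n with
  | zero =>
    left
    simp [lam]
    norm_num
  | succ n ih =>
    have h1 : lam (n + 1) v / 12 ^ (n + 1) =
        (lam n (fun j => v j.castSucc) / 12 ^ n + dv (v (Fin.last n))) / 12 := by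
      rw [lam, lam, Fin.sum_univ_castSucc]
      simp only [Fin.val_castSucc, Fin.val_last]
      rw [pow_succ]
      field_simp
    rw [h1]
    have h2 := ih fun j => v j.castSucc
    set z := lam n (fun j => v j.castSucc) / 12 ^ n with hz
    have hz0 : 0 ≤ z := by rcases h2 with h | h <;> linarith [h.1]
    have hz1 : z ≤ 75 / 44 := by rcases h2 with h | h <;> linarith [h.2]
    obtain ⟨p, q⟩ := v (Fin.last n)
    have hp : ((p : ℕ) : ℝ) = 0 ∨ ((p : ℕ) : ℝ) = 1 := by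
      fin_cases p <;> simp
    have hq : ((q : ℕ) : ℝ) = 0 ∨ ((q : ℕ) : ℝ) = 1 := by
      fin_cases q <;> simp
    simp only [dv]
    rcases hp with hp | hp <;> rcases hq with hq | hq <;> rw [hp, hq]
    · left; constructor <;> linarith
    · right; constructor <;> linarith
    · left; constructor <;> linarith
    · right; constructor <;> linarith

theorem ft_lower [IsProbabilityMeasure ν] (h : Inv1 ν)
    (hsupp : ∀ᵐ x ∂ν, x ∈ Set.Icc (0 : ℝ) 1) (n : ℕ) (v : Fin n → Q) :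
    1 / 10 ≤ ‖ft ν (lam n v / 12 ^ n)‖ := by
  rcases lam_range n v with h1 | h1
  · have := ft_lower_small h hsupp _ h1.1 h1.2
    linarith
  · exact ft_lower_large h hsupp _ h1.1 h1.2

theorem xw_range (n : ℕ) (w : Fin n → Q) : 0 ≤ xw n w ∧ xw n w + 1 / 12 ^ n ≤ 1 := by
  induction n with
  | zero => simp [xw]
  | succ n ih =>
    have h1 : xw (n + 1) w = xw n (fun j => w j.castSucc) + bv (w (Fin.last n)) / 12 ^ (n + 1) := by
      rw [xw, xw, Fin.sum_univ_castSucc]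
      simp only [Fin.val_castSucc, Fin.val_last]
    have h2 := ih fun j => w j.castSucc
    have h3 : 0 ≤ bv (w (Fin.last n)) ∧ bv (w (Fin.last n)) ≤ 9 := by
      obtain ⟨p, q⟩ := w (Fin.last n)
      have hp : ((p : ℕ) : ℝ) = 0 ∨ ((p : ℕ) : ℝ) = 1 := by
        fin_cases p <;> simp
      have hq : ((q : ℕ) : ℝ) = 0 ∨ ((q : ℕ) : ℝ) = 1 := by
        fin_cases q <;> simp
      simp only [bv]
      rcases hp with hp | hp <;> rcases hq with hq | hq <;> rw [hp, hq] <;> norm_num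
    have h4 : (0 : ℝ) < 12 ^ n := by positivity
    have h5 : bv (w (Fin.last n)) / 12 ^ (n + 1) + 1 / 12 ^ (n + 1) ≤ 1 / 12 ^ n := by
      rw [pow_succ, ← add_div, div_le_div_iff₀ (by positivity) h4]
      nlinarith [h3.2]
    have h6 : 0 ≤ bv (w (Fin.last n)) / 12 ^ (n + 1) := div_nonneg h3.1 (by positivity)
    rw [h1]
    constructor
    · linarith [h2.1]
    · linarith [h2.2]

theorem sq_integral_le [IsProbabilityMeasure ν] (u : ℝ → ℝ) (hu : MemLp u 2 ν) :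
    (∫ x, u x ∂ν) ^ 2 ≤ ∫ x, u x ^ 2 ∂ν := by
  have h1 : Integrable u ν := hu.integrable (by norm_num)
  have h2 : Integrable (fun x => u x ^ 2) ν := hu.integrable_sq
  set A := ∫ x, u x ∂ν with hA
  have h3 : 0 ≤ ∫ x, (u x - A) ^ 2 ∂ν := integral_nonneg fun x => sq_nonneg _
  have h4 : ∫ x, (u x - A) ^ 2 ∂ν = (∫ x, u x ^ 2 ∂ν) - 2 * A * A + A ^ 2 := by
    have h5 : ∀ x, (u x - A) ^ 2 = u x ^ 2 - 2 * A * u x + A ^ 2 := fun x => by ring
    simp only [h5]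
    have h6 : Integrable (fun x => u x ^ 2 - 2 * A * u x) ν := h2.sub (h1.const_mul _)
    rw [integral_add h6 (integrable_const _),
      integral_sub h2 (h1.const_mul _), integral_const_mul]
    simp [hA]
  rw [h4] at h3
  nlinarith

end Pool.Agent.TH284.Sp
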