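import Pool.Agent.TH284.Sp3

set_option autoImplicit false
set_option linter.unusedSectionVars false
open MeasureTheory Filter Topology
open scoped ENNReal ComplexConjugate

namespace Pool.Agent.TH284.Sp

variable {ν : Measure ℝ}

/-- the Bessel type inequality at level `n` -/
theorem key_bessel [IsProbabilityMeasure ν] (n : ℕ) (r : (Fin n → Q) → ℝ → ℂ)
    (hr : ∀ w, MemLp (r w) 2 ν) :
    ∑ v : Fin n → Q, ‖∫ x, ((4 : ℂ) ^ n)⁻¹ * (∑ w : Fin n → Q, r w x * e (-(lam n v * xw n w))) *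
      e (-(lam n v / 12 ^ n * x)) ∂ν‖ ^ 2 ≤ ((4 : ℝ) ^ n)⁻¹ * ∑ w : Fin n → Q, ∫ x, ‖r w x‖ ^ 2 ∂ν := by
  let G : (Fin n → Q) → ℝ → ℂ := fun v x =>
    ((4 : ℂ) ^ n)⁻¹ * (∑ w : Fin n → Q, r w x * e (-(lam n v * xw n w)))
  have hG : ∀ v, MemLp (G v) 2 ν := by
    intro v
    refine MemLp.const_mul ?_ _
    refine memLp_finsetSum _ fun w _ => ?_
    exact (hr w).mul_const _
  have h1 : ∀ v, ‖∫ x, G v x * e (-(lam n v / 12 ^ n * x)) ∂ν‖ ^ 2 ≤ ∫ x, ‖G v x‖ ^ 2 ∂ν := by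
    intro v
    have h2 : ‖∫ x, G v x * e (-(lam n v / 12 ^ n * x)) ∂ν‖ ≤ ∫ x, ‖G v x‖ ∂ν := by
      refine (norm_integral_le_integral_norm _).trans (le_of_eq ?_)
      congr 1
      funext x
      rw [norm_mul, norm_e, mul_one]
    exact (pow_le_pow_left₀ (norm_nonneg _) h2 2).trans (sq_integral_le _ (hG v).norm)
  refine (Finset.sum_le_sum fun v _ => h1 v).trans ?_
  have hGi : ∀ v, Integrable (fun x => ‖G v x‖ ^ 2) ν := fun v => (hG v).norm.integrable_sq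
  have hri : ∀ w, Integrable (fun x => ‖r w x‖ ^ 2) ν := fun w => (hr w).norm.integrable_sq
  rw [← integral_finsetSum _ fun v _ => hGi v, ← integral_finsetSum _ fun w _ => hri w,
    ← integral_const_mul]
  refine le_of_eq ?_
  congr 1
  funext x
  have h2 : ∀ v, ‖G v x‖ ^ 2 = (((4 : ℝ) ^ n)⁻¹) ^ 2 *
      ‖∑ w : Fin n → Q, r w x * e (-(lam n v * xw n w))‖ ^ 2 := by
    intro v
    show ‖((4 : ℂ) ^ n)⁻¹ * (∑ w : Fin n → Q, r w x * e (-(lam n v * xw n w)))‖ ^ 2 = _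
    rw [norm_mul, mul_pow]
    congr 2
    simp
  simp only [h2]
  rw [← Finset.mul_sum, parseval]
  have h4 : (4 : ℝ) ^ n ≠ 0 := by positivity
  field_simp

theorem norm_sq_add_le (a b : ℂ) : ‖a + b‖ ^ 2 ≤ 2 * ‖a‖ ^ 2 + 2 * ‖b‖ ^ 2 := by
  have h1 := norm_add_le a b
  have h2 := norm_nonneg (a + b)
  nlinarith [sq_nonneg (‖a‖ - ‖b‖), norm_nonneg a, norm_nonneg b]

theorem main_estimate [IsProbabilityMeasure ν] (h : Inv1 ν)
    (hsupp : ∀ᵐ x ∂ν, x ∈ Set.Icc (0 : ℝ) 1) (f : ℝ → ℂ) (hf : MemLp f 2 ν)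
    (hort : ∀ (n : ℕ) (v : Fin n → Q), ∫ x, f x * e (-(lam n v * x)) ∂ν = 0) (ε : ℝ)
    (hε : 0 < ε) : ∫ x, ‖f x‖ ^ 2 ∂ν ≤ 808 * ε ^ 2 := by
  -- continuous approximation
  obtain ⟨g, hg1, hg2⟩ := (show MemLp f (ENNReal.ofReal 2) ν by
    simpa using hf).exists_boundedContinuous_integral_rpow_sub_le (by norm_num : (0 : ℝ) < 2)
    (by positivity : 0 < ε ^ 2)
  have hg2' : MemLp g 2 ν := by simpa using hg2
  have hfg : MemLp (fun x => f x - g x) 2 ν := hf.sub hg2'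
  have hg1' : ∫ x, ‖f x - g x‖ ^ 2 ∂ν ≤ ε ^ 2 := by
    have : ∀ x, ‖f x - g x‖ ^ 2 = ‖f x - g x‖ ^ (2 : ℝ) := fun x => by
      rw [← Real.rpow_natCast]
      norm_num
    simp only [this]
    exact hg1
  have hgu : UniformContinuousOn g (Set.Icc (0 : ℝ) 1) :=
    isCompact_Icc.uniformContinuousOn_of_continuous g.continuous.continuousOn
  obtain ⟨δ, hδ, hgδ⟩ := Metric.uniformContinuousOn_iff.1 hgu ε hε
  obtain ⟨n, hn⟩ : ∃ n : ℕ, (1 : ℝ) / 12 ^ n < δ := by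
    obtain ⟨n, hn⟩ := exists_pow_lt_of_lt_one hδ (by norm_num : (1 / 12 : ℝ) < 1)
    exact ⟨n, by rwa [one_div_pow] at hn⟩
  -- data
  let c : (Fin n → Q) → ℂ := fun w => g (xw n w)
  let r : (Fin n → Q) → ℝ → ℂ := fun w x => c w - f (phi n w x)
  have h4 : (0 : ℝ) < 4 ^ n := by positivity
  have hfcomp : ∀ w, MemLp (fun x => f (phi n w x)) 2 ν := by
    intro w
    have h1 : MemLp f 2 (ν.map (phi n w)) :=
      (hf.smul_measure (ENNReal.pow_ne_top (by norm_num))).mono_measure (h.map_le n w)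
    exact h1.comp_of_map (continuous_phi n w).aemeasurable
  have hr : ∀ w, MemLp (r w) 2 ν := fun w => (memLp_const _).sub (hfcomp w)
  have hbes := key_bessel n r hr
  -- the left side
  have hleft : ∀ v : Fin n → Q, ∫ x, ((4 : ℂ) ^ n)⁻¹ * (∑ w : Fin n → Q,
      r w x * e (-(lam n v * xw n w))) * e (-(lam n v / 12 ^ n * x)) ∂ν =
      ((4 : ℂ) ^ n)⁻¹ * (∑ w : Fin n → Q, c w * e (-(lam n v * xw n w))) *
        ft ν (lam n v / 12 ^ n) := by
    intro v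
    have hint1 : ∀ w : Fin n → Q, Integrable (fun x => c w * e (-(lam n v * xw n w)) *
        e (-(lam n v / 12 ^ n * x))) ν := fun w => (integrable_e _ (by fun_prop)).const_mul _
    have hfe : Integrable (fun x => f x * e (-(lam n v * x))) ν := by
      refine (hf.integrable (by norm_num)).mul_bdd (c := 1) ?_ ?_
      · exact (continuous_e.comp (by fun_prop)).aestronglyMeasurable
      · exact Eventually.of_forall fun x => (norm_e _).le
    have hint2 : ∀ w : Fin n → Q, Integrable (fun x => f (phi n w x) *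
        e (-(lam n v * phi n w x))) ν := fun w => h.integrable_comp n w hfe
    have h5 : ∀ x, ((4 : ℂ) ^ n)⁻¹ * (∑ w : Fin n → Q, r w x * e (-(lam n v * xw n w))) *
        e (-(lam n v / 12 ^ n * x)) =
        ((4 : ℂ) ^ n)⁻¹ * (∑ w : Fin n → Q, c w * e (-(lam n v * xw n w)) *
          e (-(lam n v / 12 ^ n * x))) - ((4 : ℂ) ^ n)⁻¹ * ∑ w : Fin n → Q, f (phi n w x) *
        e (-(lam n v * phi n w x)) := by
      intro x
      rw [← mul_sub, ← Finset.sum_sub_distrib, mul_assoc, Finset.sum_mul]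
      congr 1
      refine Finset.sum_congr rfl fun w _ => ?_
      have h6 : e (-(lam n v * phi n w x)) =
          e (-(lam n v * xw n w)) * e (-(lam n v / 12 ^ n * x)) := by
        rw [← e_add, phi]
        congr 1
        ring
      rw [h6]
      show (c w - f (phi n w x)) * _ * _ = _
      ring
    simp only [h5]
    rw [integral_sub ((integrable_finsetSum _ fun w _ => hint1 w).const_mul _)
      ((integrable_finsetSum _ fun w _ => hint2 w).const_mul _), integral_const_mul,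
      integral_const_mul, integral_finsetSum _ fun w _ => hint1 w,
      integral_finsetSum _ fun w _ => hint2 w]
    have h6 := hort n v
    rw [h.integral_level n hfe, Complex.real_smul] at h6
    have h7 : ((4 : ℂ) ^ n)⁻¹ * ∑ w : Fin n → Q, ∫ x, f (phi n w x) *
        e (-(lam n v * phi n w x)) ∂ν = 0 := by
      push_cast at h6
      exact h6
    rw [h7, sub_zero, mul_assoc, Finset.sum_mul]
    congr 1
    refine Finset.sum_congr rfl fun w _ => ?_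
    rw [integral_const_mul, ft]
  simp only [hleft] at hbes
  have hlow : 1 / 100 * (((4 : ℝ) ^ n)⁻¹ * ∑ w : Fin n → Q, ‖c w‖ ^ 2) ≤
      ∑ v : Fin n → Q, ‖((4 : ℂ) ^ n)⁻¹ * (∑ w : Fin n → Q, c w * e (-(lam n v * xw n w))) *
        ft ν (lam n v / 12 ^ n)‖ ^ 2 := by
    have h5 : ∀ v : Fin n → Q, 1 / 100 * ((((4 : ℝ) ^ n)⁻¹) ^ 2 *
        ‖∑ w : Fin n → Q, c w * e (-(lam n v * xw n w))‖ ^ 2) ≤
        ‖((4 : ℂ) ^ n)⁻¹ * (∑ w : Fin n → Q, c w * e (-(lam n v * xw n w))) *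
        ft ν (lam n v / 12 ^ n)‖ ^ 2 := by
      intro v
      have h6 := ft_lower h hsupp n v
      rw [norm_mul, norm_mul, mul_pow, mul_pow]
      have h7 : ‖((4 : ℂ) ^ n)⁻¹‖ = ((4 : ℝ) ^ n)⁻¹ := by simp
      rw [h7]
      have h8 : (1 / 100 : ℝ) ≤ ‖ft ν (lam n v / 12 ^ n)‖ ^ 2 := by
        have := pow_le_pow_left₀ (by norm_num) h6 2
        norm_num at this ⊢
        linarith
      have h9 : 0 ≤ (((4 : ℝ) ^ n)⁻¹) ^ 2 *
        ‖∑ w : Fin n → Q, c w * e (-(lam n v * xw n w))‖ ^ 2 := by positivity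
      nlinarith
    refine le_trans (le_of_eq ?_) (Finset.sum_le_sum fun v _ => h5 v)
    rw [← Finset.mul_sum, ← Finset.mul_sum, parseval]
    field_simp
  -- the right side
  have hr2 : ∀ w, ∫ x, ‖r w x‖ ^ 2 ∂ν ≤ 2 * ε ^ 2 + 2 * ∫ x, ‖f (phi n w x) - g (phi n w x)‖ ^ 2 ∂ν := by
    intro w
    have hi : Integrable (fun x => ‖f (phi n w x) - g (phi n w x)‖ ^ 2) ν :=
      h.integrable_comp n w hfg.norm.integrable_sq
    have h5 : ∫ x, ‖r w x‖ ^ 2 ∂ν ≤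
        ∫ x, (2 * ε ^ 2 + 2 * ‖f (phi n w x) - g (phi n w x)‖ ^ 2) ∂ν := by
      refine integral_mono_ae (hr w).norm.integrable_sq
        ((integrable_const _).add (hi.const_mul _)) ?_
      filter_upwards [hsupp] with x hx
      have h6 : r w x = (g (xw n w) - g (phi n w x)) + (g (phi n w x) - f (phi n w x)) := by
        show c w - f (phi n w x) = _
        simp only [c]
        ring
      have hxw := xw_range n w
      have h12 : (0 : ℝ) < 1 / 12 ^ n := by positivity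
      have hle : x / 12 ^ n ≤ 1 / 12 ^ n := by
        rw [div_le_div_iff_of_pos_right (by positivity)]
        exact hx.2
      have hge : 0 ≤ x / 12 ^ n := div_nonneg hx.1 (by positivity)
      have h7 : ‖g (xw n w) - g (phi n w x)‖ ≤ ε := by
        rw [← dist_eq_norm]
        refine (hgδ _ ⟨hxw.1, by linarith [hxw.2]⟩ _ ⟨?_, ?_⟩ ?_).le
        · rw [phi]; linarith [hxw.1]
        · rw [phi]; linarith [hxw.2]
        · rw [phi, Real.dist_eq]
          have : xw n w - (x / 12 ^ n + xw n w) = -(x / 12 ^ n) := by ring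
          rw [this, abs_neg, abs_of_nonneg hge]
          linarith
      rw [h6]
      refine (norm_sq_add_le _ _).trans ?_
      rw [norm_sub_rev (g (phi n w x))]
      have h8 : ‖g (xw n w) - g (phi n w x)‖ ^ 2 ≤ ε ^ 2 :=
        pow_le_pow_left₀ (norm_nonneg _) h7 2
      linarith
    refine h5.trans (le_of_eq ?_)
    rw [integral_add (integrable_const _) (hi.const_mul _), integral_const, integral_const_mul]
    simp
  have hE : ((4 : ℝ) ^ n)⁻¹ * ∑ w : Fin n → Q, ∫ x, ‖r w x‖ ^ 2 ∂ν ≤ 4 * ε ^ 2 := by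
    have h5 : ∑ w : Fin n → Q, ∫ x, ‖r w x‖ ^ 2 ∂ν ≤
        ∑ w : Fin n → Q, (2 * ε ^ 2 + 2 * ∫ x, ‖f (phi n w x) - g (phi n w x)‖ ^ 2 ∂ν) :=
      Finset.sum_le_sum fun w _ => hr2 w
    have h6 := h.integral_level n hfg.norm.integrable_sq
    rw [smul_eq_mul] at h6
    have h7 : ((4 : ℝ) ^ n)⁻¹ * ∑ w : Fin n → Q, (2 * ε ^ 2 + 2 *
        ∫ x, ‖f (phi n w x) - g (phi n w x)‖ ^ 2 ∂ν) =
        2 * ε ^ 2 + 2 * ∫ x, ‖f x - g x‖ ^ 2 ∂ν := by
      rw [Finset.sum_add_distrib, h6, Finset.sum_const, Finset.card_univ,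
        Fintype.card_fun, ← Finset.mul_sum]
      simp only [Fintype.card_prod, Fintype.card_fin, nsmul_eq_mul]
      push_cast
      norm_num
      field_simp
    calc ((4 : ℝ) ^ n)⁻¹ * ∑ w : Fin n → Q, ∫ x, ‖r w x‖ ^ 2 ∂ν
        ≤ ((4 : ℝ) ^ n)⁻¹ * ∑ w : Fin n → Q, (2 * ε ^ 2 + 2 *
        ∫ x, ‖f (phi n w x) - g (phi n w x)‖ ^ 2 ∂ν) :=
          mul_le_mul_of_nonneg_left h5 (by positivity)
      _ = 2 * ε ^ 2 + 2 * ∫ x, ‖f x - g x‖ ^ 2 ∂ν := h7
      _ ≤ 4 * ε ^ 2 := by linarith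
  have hc : ((4 : ℝ) ^ n)⁻¹ * ∑ w : Fin n → Q, ‖c w‖ ^ 2 ≤ 400 * ε ^ 2 := by
    linarith [hlow.trans hbes]
  -- conclusion
  have hf2 := h.integral_level n hf.norm.integrable_sq
  rw [smul_eq_mul] at hf2
  rw [hf2]
  have h5 : ∀ w, ∫ x, ‖f (phi n w x)‖ ^ 2 ∂ν ≤ 2 * ‖c w‖ ^ 2 + 2 * ∫ x, ‖r w x‖ ^ 2 ∂ν := by
    intro w
    have hi := (hr w).norm.integrable_sq
    have h6 : ∫ x, ‖f (phi n w x)‖ ^ 2 ∂ν ≤ ∫ x, (2 * ‖c w‖ ^ 2 + 2 * ‖r w x‖ ^ 2) ∂ν := by
      refine integral_mono (h.integrable_comp n w hf.norm.integrable_sq)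
        ((integrable_const _).add (hi.const_mul _)) fun x => ?_
      have h7 : f (phi n w x) = c w + -r w x := by
        show _ = c w + -(c w - f (phi n w x))
        ring
      show ‖f (phi n w x)‖ ^ 2 ≤ 2 * ‖c w‖ ^ 2 + 2 * ‖r w x‖ ^ 2
      rw [h7]
      refine (norm_sq_add_le _ _).trans ?_
      rw [norm_neg]
    refine h6.trans (le_of_eq ?_)
    rw [integral_add (integrable_const _) (hi.const_mul _), integral_const, integral_const_mul]
    simp
  calc ((4 : ℝ) ^ n)⁻¹ * ∑ w : Fin n → Q, ∫ x, ‖f (phi n w x)‖ ^ 2 ∂ν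
      ≤ ((4 : ℝ) ^ n)⁻¹ * ∑ w : Fin n → Q, (2 * ‖c w‖ ^ 2 + 2 * ∫ x, ‖r w x‖ ^ 2 ∂ν) :=
        mul_le_mul_of_nonneg_left (Finset.sum_le_sum fun w _ => h5 w) (by positivity)
    _ = 2 * (((4 : ℝ) ^ n)⁻¹ * ∑ w : Fin n → Q, ‖c w‖ ^ 2) +
        2 * (((4 : ℝ) ^ n)⁻¹ * ∑ w : Fin n → Q, ∫ x, ‖r w x‖ ^ 2 ∂ν) := by
        rw [Finset.sum_add_distrib, ← Finset.mul_sum, ← Finset.mul_sum]
        ring
    _ ≤ 808 * ε ^ 2 := by linarith

/-- Completeness of the exponentials. -/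
theorem complete [IsProbabilityMeasure ν] (h : Inv1 ν)
    (hsupp : ∀ᵐ x ∂ν, x ∈ Set.Icc (0 : ℝ) 1) (f : ℝ → ℂ) (hf : MemLp f 2 ν)
    (hort : ∀ (n : ℕ) (v : Fin n → Q), ∫ x, f x * e (-(lam n v * x)) ∂ν = 0) : f =ᵐ[ν] 0 := by
  have h0 : ∫ x, ‖f x‖ ^ 2 ∂ν = 0 := by
    refine le_antisymm ?_ (integral_nonneg fun x => sq_nonneg _)
    refine le_of_forall_pos_le_add fun δ hδ => ?_
    have h1 := main_estimate h hsupp f hf hort (Real.sqrt (δ / 808)) (Real.sqrt_pos.2 (by positivity))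
    rw [Real.sq_sqrt (by positivity)] at h1
    linarith
  rw [integral_eq_zero_iff_of_nonneg (fun x => sq_nonneg _) hf.norm.integrable_sq] at h0
  filter_upwards [h0] with x hx
  have h1 : ‖f x‖ ^ 2 = 0 := hx
  have h2 : ‖f x‖ = 0 := by
    exact pow_eq_zero_iff (two_ne_zero) |>.1 h1
  exact norm_eq_zero.1 h2

end Pool.Agent.TH284.Sp
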