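import Pool.Agent.TH284.Contr
import Pool.Agent.TH284.Rigid

set_option autoImplicit false
open MeasureTheory Matrix Filter Topology

namespace Pool.Agent.TH284.SA

variable {d : ℕ}

/-- cast of an integer vector -/
def toR (v : Fin d → ℤ) : Fin d → ℝ := fun i => (v i : ℝ)

theorem toR_add (v w : Fin d → ℤ) : toR (v + w) = toR v + toR w := by
  funext i; simp [toR]

theorem toR_sub (v w : Fin d → ℤ) : toR (v - w) = toR v - toR w := by
  funext i; simp [toR]

theorem toR_zero : toR (0 : Fin d → ℤ) = 0 := by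
  funext i; simp [toR]

theorem toR_injective : Function.Injective (toR (d := d)) := by
  intro v w h
  funext i
  have := congrFun h i
  simpa [toR] using this

theorem toR_mulVec (R : Matrix (Fin d) (Fin d) ℤ) (v : Fin d → ℤ) :
    toR (R *ᵥ v) = R.map (Int.castRingHom ℝ) *ᵥ toR v := by
  funext i
  simp [toR, Matrix.mulVec, dotProduct]

variable (R : Matrix (Fin d) (Fin d) ℤ)

/-- the maps of the iterated function system -/
noncomputable def phi (b : Fin d → ℤ) (x : Fin d → ℝ) : Fin d → ℝ := inv R *ᵥ (x + toR b)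

/-- compositions along words -/
noncomputable def phiw : List (Fin d → ℤ) → (Fin d → ℝ) → (Fin d → ℝ)
  | [], x => x
  | b :: w, x => phi R b (phiw w x)

/-- integer code of a word -/
def code : List (Fin d → ℤ) → (Fin d → ℤ)
  | [] => 0
  | b :: w => R ^ w.length *ᵥ b + code w

theorem inv_pow_mul_pow (hdet : R.det ≠ 0) (k : ℕ) :
    inv R ^ k * (R.map (Int.castRingHom ℝ)) ^ k = 1 := by
  have h1 := inv_mul_self R hdet
  have h2 := mul_inv_self R hdet
  have hc : Commute (inv R) (R.map (Int.castRingHom ℝ)) := by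
    rw [Commute, SemiconjBy, h1, h2]
  rw [← hc.mul_pow, h1, one_pow]

theorem pow_mul_inv_pow (hdet : R.det ≠ 0) (k : ℕ) :
    (R.map (Int.castRingHom ℝ)) ^ k * inv R ^ k = 1 :=
  mul_eq_one_comm.1 (inv_pow_mul_pow R hdet k)

theorem inv_pow_mulVec_injective (hdet : R.det ≠ 0) (k : ℕ) :
    Function.Injective (fun x : Fin d → ℝ => inv R ^ k *ᵥ x) := by
  intro x y h
  have h1 := congrArg (fun z => (R.map (Int.castRingHom ℝ)) ^ k *ᵥ z) h
  simp only [Matrix.mulVec_mulVec, pow_mul_inv_pow R hdet k, Matrix.one_mulVec] at h1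
  exact h1

theorem toR_pow_mulVec (k : ℕ) (v : Fin d → ℤ) :
    toR (R ^ k *ᵥ v) = (R.map (Int.castRingHom ℝ)) ^ k *ᵥ toR v := by
  rw [toR_mulVec]
  congr 1
  exact Matrix.map_pow R (Int.castRingHom ℝ) k

theorem phiw_eq (hdet : R.det ≠ 0) (w : List (Fin d → ℤ)) (x : Fin d → ℝ) :
    phiw R w x = inv R ^ w.length *ᵥ (x + toR (code R w)) := by
  induction w with
  | nil => simp [phiw, code, toR_zero]
  | cons b w ih =>
    rw [phiw, ih, phi, code, List.length_cons, toR_add, toR_pow_mulVec, pow_succ']
    rw [← Matrix.mulVec_mulVec]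
    congr 1
    rw [Matrix.mulVec_add, Matrix.mulVec_add, Matrix.mulVec_add, Matrix.mulVec_mulVec,
      inv_pow_mul_pow R hdet, Matrix.one_mulVec]
    abel

theorem phiw_append (u w : List (Fin d → ℤ)) (x : Fin d → ℝ) :
    phiw R (u ++ w) x = phiw R u (phiw R w x) := by
  induction u with
  | nil => rfl
  | cons b u ih => rw [List.cons_append, phiw, phiw, ih]

theorem code_append (u w : List (Fin d → ℤ)) :
    code R (u ++ w) = R ^ w.length *ᵥ code R u + code R w := by
  induction u with
  | nil => simp [code]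
  | cons b u ih =>
    rw [List.cons_append, code, code, ih, List.length_append, Matrix.mulVec_add,
      Matrix.mulVec_mulVec, ← pow_add, add_comm u.length w.length, add_assoc]

theorem continuous_phi (b : Fin d → ℤ) : Continuous (phi R b) := by
  have h := (Matrix.toLin' (inv R)).continuous_of_finiteDimensional
  have : phi R b = fun x => Matrix.toLin' (inv R) (x + toR b) := by
    funext x
    rw [Matrix.toLin'_apply]
    rfl
  rw [this]
  exact h.comp (continuous_id.add continuous_const)

theorem continuous_phiw (w : List (Fin d → ℤ)) : Continuous (phiw R w) := by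
  induction w with
  | nil => exact continuous_id
  | cons b w ih => exact (continuous_phi R b).comp ih

/-- words of length `n` over `B` -/
def W [DecidableEq (Fin d → ℤ)] (B : Finset (Fin d → ℤ)) : ℕ → Finset (List (Fin d → ℤ))
  | 0 => {[]}
  | n + 1 => (B ×ˢ W B n).image fun p => p.1 :: p.2

variable (B : Finset (Fin d → ℤ))

theorem mem_W (n : ℕ) (w : List (Fin d → ℤ)) : w ∈ W B n ↔ w.length = n ∧ ∀ b ∈ w, b ∈ B := by
  induction n generalizing w with
  | zero =>
    rw [W, Finset.mem_singleton]
    constructor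
    · rintro rfl
      simp
    · rintro ⟨h, -⟩
      exact List.length_eq_zero_iff.1 h
  | succ n ih =>
    rw [W, Finset.mem_image]
    constructor
    · rintro ⟨⟨b, u⟩, h, rfl⟩
      rw [Finset.mem_product] at h
      have h2 := (ih u).1 h.2
      refine ⟨by simp [h2.1], ?_⟩
      intro b' hb'
      rcases List.mem_cons.1 hb' with h3 | h3
      · rw [h3]; exact h.1
      · exact h2.2 b' h3
    · rintro ⟨h1, h2⟩
      cases w with
      | nil => simp at h1
      | cons b u =>
        refine ⟨(b, u), ?_, rfl⟩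
        rw [Finset.mem_product]
        refine ⟨h2 b (by simp), (ih u).2 ⟨by simpa using h1, fun b' hb' => h2 b' (by simp [hb'])⟩⟩

theorem append_mem_W {m n : ℕ} {u w : List (Fin d → ℤ)} (hu : u ∈ W B m) (hw : w ∈ W B n) :
    u ++ w ∈ W B (m + n) := by
  rw [mem_W] at *
  refine ⟨by rw [List.length_append, hu.1, hw.1], fun b hb => ?_⟩
  rcases List.mem_append.1 hb with h | h
  · exact hu.2 b h
  · exact hw.2 b h

theorem sum_W_succ {M : Type} [AddCommMonoid M] (n : ℕ) (f : List (Fin d → ℤ) → M) :
    ∑ w ∈ W B (n + 1), f w = ∑ b ∈ B, ∑ w ∈ W B n, f (b :: w) := by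
  rw [W, Finset.sum_image, Finset.sum_product]
  rintro ⟨b, u⟩ - ⟨b', u'⟩ - h
  simp only [List.cons.injEq] at h
  rw [h.1, h.2]

theorem card_W (n : ℕ) : (W B n).card = B.card ^ n := by
  induction n with
  | zero => simp [W]
  | succ n ih =>
    rw [Finset.card_eq_sum_ones, sum_W_succ]
    simp only [Finset.sum_const, smul_eq_mul, mul_one, ih]
    rw [pow_succ, mul_comm]

end Pool.Agent.TH284.SA
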